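import Pool.Agent.Run7.h452.GF.Fam

/-!
The forms are computable from the tuples.
-/

set_option autoImplicit false

namespace Run7.h452.GF

def lsum (l : List ℕ) : ℕ := l.foldr (fun a s => a + s) 0

def bnd (h : List (List ℕ)) : ℕ := h.foldr (fun l s => lsum l + s) 0

theorem lsum_ge {l : List ℕ} {c : ℕ} (h : c ∈ l) : c ≤ lsum l := by
  induction l with
  | nil => simp at h
  | cons a l ih =>
    unfold lsum at ih ⊢
    rw [List.foldr_cons]
    rcases List.mem_cons.1 h with rfl | h
    · omega
    · have := ih h; omega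

theorem bnd_ge {h : List (List ℕ)} {i c : ℕ} (hc : c ∈ h.getD i []) : c ≤ bnd h := by
  induction h generalizing i with
  | nil => simp at hc
  | cons l h ih =>
    unfold bnd at ih ⊢
    rw [List.foldr_cons]
    cases i with
    | zero =>
      have := lsum_ge (l := l) (c := c) (by simpa using hc)
      omega
    | succ i =>
      have := ih (i := i) (by simpa using hc)
      omega

theorem primrec_lsum : Primrec lsum :=
  Primrec.list_foldr Primrec.id (Primrec.const 0)
    ((Primrec.nat_add.comp (Primrec.fst.comp Primrec.snd) (Primrec.snd.comp Primrec.snd)).to₂)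

theorem primrec_bnd : Primrec bnd :=
  Primrec.list_foldr Primrec.id (Primrec.const 0)
    ((Primrec.nat_add.comp (primrec_lsum.comp (Primrec.fst.comp Primrec.snd))
      (Primrec.snd.comp Primrec.snd)).to₂)

theorem primrec_idx : Primrec idx :=
  Primrec.nat_add.comp (Primrec.nat_mul.comp (Primrec.const 2) Primrec.id) (Primrec.const 1)

theorem primrec_ltr : Primrec ltr :=
  Primrec.nat_add.comp (Primrec.nat_mul.comp (Primrec.const 2) Primrec.id) (Primrec.const 2)

theorem primrec_inl {α : Type} [Primcodable α] {f : α → ℕ} (hf : Primrec f) :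
    Primrec (fun a => (Sum.inl (f a) : Sym)) := Primrec.sumInl.comp hf

theorem primrec_inr {α : Type} [Primcodable α] {f : α → ℕ} (hf : Primrec f) :
    Primrec (fun a => (Sum.inr (f a) : Sym)) := Primrec.sumInr.comp hf

theorem primrec_s1 {α : Type} [Primcodable α] {f : α → Sym} (hf : Primrec f) :
    Primrec (fun a => [f a]) := Primrec.list_cons.comp hf (Primrec.const [])

theorem primrec_s2 {α : Type} [Primcodable α] {f g : α → Sym} (hf : Primrec f) (hg : Primrec g) :
    Primrec (fun a => [f a, g a]) := Primrec.list_cons.comp hf (primrec_s1 hg)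

theorem primrec_ntm {α : Type} [Primcodable α] (b : ℕ) {f g : α → ℕ} (hf : Primrec f)
    (hg : Primrec g) : Primrec (fun a => ntm b (f a) (g a)) := by
  unfold ntm
  exact Primrec.nat_add.comp (Primrec.const 10)
    (Primrec₂.natPair.comp (Primrec.const b) (Primrec₂.natPair.comp hf hg))

def inner3 (b : ℕ) (z : ((List (List ℕ) × ℕ) × ℕ) × ℕ) : List (ℕ × List Sym) :=
  (List.range z.1.1.2).flatMap (fun c => if c = (z.1.1.1.getD z.1.2 []).getD z.2 0 then [] else
    [(ntm b z.1.2 z.2, [Sum.inl 3, Sum.inr (ltr c)])])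

def inner2 (b : ℕ) (z : (List (List ℕ) × ℕ) × ℕ) : List (ℕ × List Sym) :=
  (List.range (z.1.1.getD z.2 []).length).flatMap (fun j =>
    (ntm b z.2 j, [Sum.inl 4]) ::
    (ntm b z.2 j, [Sum.inl (ntm b z.2 (j + 1)), Sum.inr (ltr ((z.1.1.getD z.2 []).getD j 0))]) ::
    inner3 b (z, j))

theorem prodsA_eq (b : ℕ) (q : List (List ℕ) × ℕ) : prodsA b q.1 q.2 =
    (8 + b, [Sum.inr 0, Sum.inl 5]) :: (List.range q.1.length).flatMap (fun i =>
      (8 + b, [Sum.inr (idx i), Sum.inl (ntm b i 0)]) ::
      (ntm b i (q.1.getD i []).length, [Sum.inl (8 + b)]) :: inner2 b (q, i)) := rfl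

theorem primrec_ti : Primrec (fun z : (List (List ℕ) × ℕ) × ℕ => z.1.1.getD z.2 []) :=
  (Primrec.list_getD (α := List ℕ) []).comp (Primrec.fst.comp Primrec.fst) Primrec.snd

theorem primrec_tij : Primrec (fun z : ((List (List ℕ) × ℕ) × ℕ) × ℕ =>
    (z.1.1.1.getD z.1.2 []).getD z.2 0) :=
  (Primrec.list_getD (α := ℕ) 0).comp (primrec_ti.comp Primrec.fst) Primrec.snd

theorem primrec_inner3 (b : ℕ) : Primrec (inner3 b) := by
  have hn : Primrec (fun z : (((List (List ℕ) × ℕ) × ℕ) × ℕ) × ℕ =>
      [(ntm b z.1.1.2 z.1.2, [(Sum.inl 3 : Sym), Sum.inr (ltr z.2)])]) := by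
    refine Primrec.list_cons.comp (Primrec.pair (primrec_ntm b
      (Primrec.snd.comp (Primrec.fst.comp Primrec.fst)) (Primrec.snd.comp Primrec.fst))
      (primrec_s2 (Primrec.const (Sum.inl 3 : Sym))
        (primrec_inr (primrec_ltr.comp Primrec.snd)))) (Primrec.const [])
  have h2 : Primrec (fun z : (((List (List ℕ) × ℕ) × ℕ) × ℕ) × ℕ =>
      if z.2 = (z.1.1.1.1.getD z.1.1.2 []).getD z.1.2 0 then [] else
        [(ntm b z.1.1.2 z.1.2, [(Sum.inl 3 : Sym), Sum.inr (ltr z.2)])]) :=
    Primrec.ite (PrimrecRel.comp Primrec.eq Primrec.snd (primrec_tij.comp Primrec.fst))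
      (Primrec.const _) hn
  exact Primrec.list_flatMap (Primrec.list_range.comp
    (Primrec.snd.comp (Primrec.fst.comp Primrec.fst))) h2.to₂

theorem primrec_inner2 (b : ℕ) : Primrec (inner2 b) := by
  have hn : Primrec (fun z : ((List (List ℕ) × ℕ) × ℕ) × ℕ => ntm b z.1.2 z.2) :=
    primrec_ntm b (Primrec.snd.comp Primrec.fst) Primrec.snd
  have e1 : Primrec (fun z : ((List (List ℕ) × ℕ) × ℕ) × ℕ =>
      (ntm b z.1.2 z.2, [(Sum.inl 4 : Sym)])) :=
    Primrec.pair hn (Primrec.const [(Sum.inl 4 : Sym)])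
  have e2 : Primrec (fun z : ((List (List ℕ) × ℕ) × ℕ) × ℕ =>
      (ntm b z.1.2 z.2, [(Sum.inl (ntm b z.1.2 (z.2 + 1)) : Sym),
        Sum.inr (ltr ((z.1.1.1.getD z.1.2 []).getD z.2 0))])) :=
    Primrec.pair hn (primrec_s2 (primrec_inl (primrec_ntm b (Primrec.snd.comp Primrec.fst)
        (Primrec.succ.comp Primrec.snd))) (primrec_inr (primrec_ltr.comp primrec_tij)))
  have e3 : Primrec (fun z : ((List (List ℕ) × ℕ) × ℕ) × ℕ => inner3 b (z.1, z.2)) :=
    (primrec_inner3 b).comp (Primrec.pair Primrec.fst Primrec.snd)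
  exact Primrec.list_flatMap (Primrec.list_range.comp (Primrec.list_length.comp primrec_ti))
    (Primrec.list_cons.comp e1 (Primrec.list_cons.comp e2 e3)).to₂

theorem primrec_prodsA (b : ℕ) : Primrec (fun q : List (List ℕ) × ℕ => prodsA b q.1 q.2) := by
  simp only [prodsA_eq]
  have e1 : Primrec (fun z : (List (List ℕ) × ℕ) × ℕ =>
      (8 + b, [(Sum.inr (idx z.2) : Sym), Sum.inl (ntm b z.2 0)])) :=
    Primrec.pair (Primrec.const (8 + b)) (primrec_s2
      (primrec_inr (primrec_idx.comp Primrec.snd))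
      (primrec_inl (primrec_ntm b Primrec.snd (Primrec.const 0))))
  have e2 : Primrec (fun z : (List (List ℕ) × ℕ) × ℕ =>
      (ntm b z.2 (z.1.1.getD z.2 []).length, [(Sum.inl (8 + b) : Sym)])) :=
    Primrec.pair (primrec_ntm b Primrec.snd (Primrec.list_length.comp primrec_ti))
      (Primrec.const [(Sum.inl (8 + b) : Sym)])
  have e3 : Primrec (fun z : (List (List ℕ) × ℕ) × ℕ => inner2 b (z.1, z.2)) :=
    (primrec_inner2 b).comp (Primrec.pair Primrec.fst Primrec.snd)
  refine Primrec.list_cons.comp (Primrec.const _) ?_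
  exact Primrec.list_flatMap (Primrec.list_range.comp (Primrec.list_length.comp Primrec.fst))
    (Primrec.list_cons.comp e1 (Primrec.list_cons.comp e2 e3)).to₂

theorem primrec_w0 : Primrec (fun q : ℕ × ℕ => w0 q.1 q.2) := by
  have h1 : Primrec (fun q : ℕ × ℕ => allT q.1 q.2) := by
    unfold allT
    refine Primrec.list_cons.comp (Primrec.const 0) (Primrec.list_append.comp ?_ ?_)
    · exact Primrec.list_map (Primrec.list_range.comp Primrec.fst)
        (primrec_idx.comp Primrec.snd).to₂
    · exact Primrec.list_map (Primrec.list_range.comp Primrec.snd)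
        (primrec_ltr.comp Primrec.snd).to₂
  exact Primrec.list_append.comp h1 h1

theorem primrec_common : Primrec (fun q : ℕ × ℕ => common q.1 q.2) := by
  unfold common
  refine Primrec.list_append.comp ?_ (Primrec.list_append.comp ?_ ?_)
  · refine Primrec.list_cons.comp (Primrec.const _) (Primrec.list_cons.comp (Primrec.const _)
      (Primrec.list_cons.comp ?_ (Primrec.const _)))
    exact Primrec.pair (Primrec.const 1) (Primrec.list_map primrec_w0
      (primrec_inr (f := fun z : (ℕ × ℕ) × ℕ => z.2) Primrec.snd).to₂)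
  · refine Primrec.list_flatMap (Primrec.list_range.comp Primrec.fst) ?_
    have hl : Primrec (fun z : (ℕ × ℕ) × ℕ => (Sum.inr (idx z.2) : Sym)) :=
      primrec_inr (primrec_idx.comp Primrec.snd)
    have e1 : Primrec (fun z : (ℕ × ℕ) × ℕ => ((3 : ℕ), [(Sum.inr (idx z.2) : Sym), Sum.inl 3])) :=
      Primrec.pair (Primrec.const 3) (primrec_s2 hl (Primrec.const (Sum.inl 3 : Sym)))
    have e2 : Primrec (fun z : (ℕ × ℕ) × ℕ => ((4 : ℕ), [(Sum.inr (idx z.2) : Sym), Sum.inl 4])) :=
      Primrec.pair (Primrec.const 4) (primrec_s2 hl (Primrec.const (Sum.inl 4 : Sym)))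
    exact (Primrec.list_cons.comp e1 (Primrec.list_cons.comp e2 (Primrec.const []))).to₂
  · refine Primrec.list_flatMap (Primrec.list_range.comp Primrec.snd) ?_
    have hl : Primrec (fun z : (ℕ × ℕ) × ℕ => (Sum.inr (ltr z.2) : Sym)) :=
      primrec_inr (primrec_ltr.comp Primrec.snd)
    have e1 : Primrec (fun z : (ℕ × ℕ) × ℕ => ((3 : ℕ), [(Sum.inl 3 : Sym), Sum.inr (ltr z.2)])) :=
      Primrec.pair (Primrec.const 3) (primrec_s2 (Primrec.const (Sum.inl 3 : Sym)) hl)
    have e2 : Primrec (fun z : (ℕ × ℕ) × ℕ => ((5 : ℕ), [(Sum.inr (ltr z.2) : Sym), Sum.inl 5])) :=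
      Primrec.pair (Primrec.const 5) (primrec_s2 hl (Primrec.const (Sum.inl 5 : Sym)))
    have e3 : Primrec (fun z : (ℕ × ℕ) × ℕ => ((5 : ℕ), [(Sum.inr (ltr z.2) : Sym)])) :=
      Primrec.pair (Primrec.const 5) (primrec_s1 hl)
    exact (Primrec.list_cons.comp e1 (Primrec.list_cons.comp e2
      (Primrec.list_cons.comp e3 (Primrec.const [])))).to₂

theorem primrec_extra : Primrec extra := by
  unfold extra
  refine Primrec.list_append.comp (Primrec.const _) ?_
  refine Primrec.list_map (Primrec.list_range.comp Primrec.id) ?_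
  exact (Primrec.pair (Primrec.const 6) (primrec_s2 (primrec_inr (primrec_idx.comp Primrec.snd))
    (Primrec.const (Sum.inl 6 : Sym)))).to₂

/-- the bound for the letters -/
def mm (q : List (List ℕ) × List (List ℕ)) : ℕ := bnd q.1 + bnd q.2 + 1

theorem primrec_mm : Primrec mm :=
  Primrec.succ.comp (Primrec.nat_add.comp (primrec_bnd.comp Primrec.fst)
    (primrec_bnd.comp Primrec.snd))

def sm (q : List (List ℕ) × List (List ℕ)) : List (ℕ × List Sym) :=
  small q.1.length (mm q) q.1 q.2

def lg (q : List (List ℕ) × List (List ℕ)) : List (ℕ × List Sym) :=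
  large q.1.length (mm q) q.1 q.2

theorem primrec_sm : Primrec sm := by
  unfold sm small
  refine Primrec.list_append.comp ?_ (Primrec.list_append.comp ?_ ?_)
  · exact primrec_common.comp (Primrec.pair (Primrec.list_length.comp Primrec.fst) primrec_mm)
  · exact (primrec_prodsA 0).comp (Primrec.pair Primrec.fst primrec_mm)
  · exact (primrec_prodsA 1).comp (Primrec.pair Primrec.snd primrec_mm)

theorem primrec_lg : Primrec lg := by
  have : lg = fun q => sm q ++ extra q.1.length := rfl
  rw [this]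
  exact Primrec.list_append.comp primrec_sm
    (primrec_extra.comp (Primrec.list_length.comp Primrec.fst))

theorem good (q : List (List ℕ) × List (List ℕ)) (hq : q.1.length = q.2.length) :
    Good q.1.length (mm q) q.1 q.2 where
  lh := rfl
  lg := hq.symm
  mh := by
    intro i c hc
    have := bnd_ge hc
    unfold mm
    omega
  mg := by
    intro i c hc
    have := bnd_ge hc
    unfold mm
    omega

/-- number of nonterminals in a word -/
def nts (s : List Sym) : ℕ := (s.filter Sum.isLeft).length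

theorem nts_map_inr (l : List ℕ) : nts (l.map Sum.inr) = 0 := by
  unfold nts
  rw [List.length_eq_zero_iff, List.filter_eq_nil_iff]
  intro x hx
  obtain ⟨a, -, rfl⟩ := List.mem_map.1 hx
  simp

theorem prodsA_lin (b : ℕ) (t : List (List ℕ)) (m : ℕ) :
    ∀ p ∈ prodsA b t m, p.2 ≠ [] ∧ nts p.2 ≤ 1 := by
  intro p hp
  unfold prodsA at hp
  rw [List.mem_cons] at hp
  rcases hp with rfl | hp
  · simp [nts]
  · obtain ⟨i, hi, hp⟩ := List.mem_flatMap.1 hp
    rw [List.mem_cons, List.mem_cons] at hp
    rcases hp with rfl | rfl | hp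
    · simp [nts]
    · simp [nts]
    · obtain ⟨j, hj, hp⟩ := List.mem_flatMap.1 hp
      rw [List.mem_cons, List.mem_cons] at hp
      rcases hp with rfl | rfl | hp
      · simp [nts]
      · simp [nts]
      · obtain ⟨c, hc, hp⟩ := List.mem_flatMap.1 hp
        split_ifs at hp with hc2
        · simp at hp
        · rw [List.mem_singleton] at hp
          subst hp
          simp [nts]

theorem common_lin (k m : ℕ) : ∀ p ∈ common k m, p.2 ≠ [] ∧ nts p.2 ≤ 1 := by
  intro p hp
  unfold common at hp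
  simp only [List.mem_append, List.mem_cons, List.not_mem_nil, or_false, List.mem_flatMap,
    List.mem_range] at hp
  rcases hp with (rfl | rfl | rfl | rfl | rfl | rfl | rfl | rfl) |
    (⟨i, hi, rfl | rfl⟩ | ⟨c, hc, rfl | rfl | rfl⟩)
  · simp [nts]
  · simp [nts]
  · refine ⟨by simp [w0, allT], ?_⟩
    simp only
    rw [nts_map_inr]
    omega
  all_goals simp [nts]

theorem sm_lin (q : List (List ℕ) × List (List ℕ)) : ∀ p ∈ sm q, p.2 ≠ [] ∧ nts p.2 ≤ 1 := by
  intro p hp
  unfold sm small at hp
  rcases List.mem_append.1 hp with hp | hp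
  · exact common_lin _ _ p hp
  · rcases List.mem_append.1 hp with hp | hp
    · exact prodsA_lin _ _ _ p hp
    · exact prodsA_lin _ _ _ p hp

theorem lg_lin (q : List (List ℕ) × List (List ℕ)) : ∀ p ∈ lg q, p.2 ≠ [] ∧ nts p.2 ≤ 1 := by
  intro p hp
  have : lg q = sm q ++ extra q.1.length := rfl
  rw [this] at hp
  rcases List.mem_append.1 hp with hp | hp
  · exact sm_lin q p hp
  · unfold extra at hp
    simp only [List.mem_append, List.mem_cons, List.not_mem_nil, or_false, List.mem_map,
      List.mem_range] at hp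
    rcases hp with (rfl | rfl | rfl) | ⟨i, hi, rfl⟩
    all_goals simp [nts]

end Run7.h452.GF
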