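import Mathlib
import Pool.Agent.Helper247.UecPcp
import Pool.Agent.Helper247.Univ

/-!
A computable family of correspondence instances with undecidable solvability (the theorem `family`
of `Pool.Agent.S15446`, repeated here so that no statement file is imported).
-/

set_option autoImplicit false

namespace Run7.h452.GF.Source

open Turing Relation Pool.Agent.Helper247 Pool.Agent.Helper247.Queue

theorem prod_head_ne {Γ Λ : Type} [Inhabited Γ] [Inhabited Λ] (M : TM0.Machine Γ Λ)
    (y : Queue.Sym Γ Λ) : (Queue.prod M .kill y).head? ≠ some y := by
  rcases y with b | ⟨r, b⟩ | _ | _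
  · simp [Queue.prod]
  · intro h
    simp only [Queue.prod] at h
    split at h <;> simp at h
  · simp [Queue.prod]
  · simp [Queue.prod]

/-- A computable family of unique equality continuation instances with undecidable solvability. -/
theorem family : ∃ (F : ℕ → List (List ℕ) × List (List ℕ)), Computable F ∧
    (∀ n, (F n).1.length = (F n).2.length) ∧
    (∀ n, ∀ u : List ℕ, (∀ i ∈ u, i < (F n).1.length) →
      ∀ a b : ℕ, a < (F n).1.length → b < (F n).1.length → a ≠ b →
        UecPcp.Comp (UecPcp.app (F n).1 (u ++ [a])) (UecPcp.app (F n).2 (u ++ [a])) →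
        UecPcp.Comp (UecPcp.app (F n).1 (u ++ [b])) (UecPcp.app (F n).2 (u ++ [b])) →
        UecPcp.app (F n).1 u = UecPcp.app (F n).2 u) ∧
    (∀ n, (∃ x : List ℕ, x ≠ [] ∧ (∀ i ∈ x, i < (F n).1.length) ∧
        UecPcp.app (F n).1 x = UecPcp.app (F n).2 x) ↔ (Univ.u n).Dom) := by
  classical
  obtain ⟨Λ, i1, i2, M, hM⟩ := Univ.exists_machine
  let S := Queue.Sym (TM2to1.Γ' PartrecToTM2.K' (fun _ => PartrecToTM2.Γ')) Λ
  have fK : Finite PartrecToTM2.K' := by
    refine Finite.of_injective (fun k : PartrecToTM2.K' => match k with
      | .main => (0 : Fin 4)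
      | .rev => 1
      | .aux => 2
      | .stack => 3) ?_
    intro a b h
    cases a <;> cases b <;> simp_all
  have fG : Finite (TM2to1.Γ' PartrecToTM2.K' (fun _ => PartrecToTM2.Γ')) :=
    inferInstanceAs (Finite (Bool × (PartrecToTM2.K' → Option PartrecToTM2.Γ')))
  have fS : Finite S := inferInstanceAs (Finite (Queue.Sym _ _))
  let _ : Fintype S := Fintype.ofFinite S
  let e := Fintype.equivFin (S × Bool)
  let c : S × Bool → ℕ := fun z => (e z : ℕ) + 2
  have hc : Function.Injective c := by
    intro a b hab
    have : (e a : ℕ) = (e b : ℕ) := by simpa [c] using hab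
    exact e.injective (Fin.ext this)
  have hc2 : ∀ x, 2 ≤ c x := fun x => by simp [c]
  let P : S → S → List S := Queue.prod M
  have hP1 : ∀ x y, 2 ≤ (P x y).length ∨ P x y = [Queue.Sym.kill] := prod_length M
  have hP2 : ∀ y, (P Queue.Sym.kill y).head? ≠ some y := prod_head_ne M
  let tape : ℕ → List (TM2to1.Γ' PartrecToTM2.K' (fun _ => PartrecToTM2.Γ')) := fun n =>
    Univ.sym true .cons :: (PartrecToTM2.trNat n).reverse.map (Univ.sym false)
  let w0 : ℕ → List (S × Bool) := fun n => (initWord (tape n)).map (fun z => (z, false))
  have hw0 : ∀ n, 2 ≤ (w0 n).length := fun n => by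
    simp only [w0, List.length_map]
    exact initWord_length _
  refine ⟨fun n => (UecPcp.H P c ((w0 n).map c), UecPcp.G Queue.Sym.kill c), ?_, ?_, ?_, ?_⟩
  · -- computability
    have hw : Computable (fun n => (w0 n).map c) := by
      have hd := Univ.digits_computable (fun a => c (Queue.Sym.cell (Univ.sym false a), false))
      have : (fun n => (w0 n).map c) = fun n =>
          (if (((PartrecToTM2.trNat n).map
              (fun a => c (Queue.Sym.cell (Univ.sym false a), false))).length + 1) % 2 = 0 then
            [c (Queue.Sym.mark, false), c (Queue.Sym.head default (Univ.sym true .cons), false)]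
          else [c (Queue.Sym.mark, false), c (Queue.Sym.cell default, false),
            c (Queue.Sym.head default (Univ.sym true .cons), false)]) ++
          ((PartrecToTM2.trNat n).map
            (fun a => c (Queue.Sym.cell (Univ.sym false a), false))).reverse := by
        funext n
        simp only [w0, tape, initWord, List.length_cons, List.length_map, List.length_reverse]
        split_ifs <;> simp [Function.comp_def]
      rw [this]
      have hlen := Computable.list_length.comp hd
      have hmod : Computable (fun n : ℕ => ((((PartrecToTM2.trNat n).map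
              (fun a => c (Queue.Sym.cell (Univ.sym false a), false))).length + 1) % 2)) :=
        (Primrec.nat_mod.comp (Primrec.succ.comp Primrec.id) (Primrec.const 2)).to_comp.comp hlen
      have hite : Computable (fun n : ℕ => (if (((PartrecToTM2.trNat n).map
              (fun a => c (Queue.Sym.cell (Univ.sym false a), false))).length + 1) % 2 = 0 then
            [c (Queue.Sym.mark, false), c (Queue.Sym.head default (Univ.sym true .cons), false)]
          else [c (Queue.Sym.mark, false), c (Queue.Sym.cell default, false),
            c (Queue.Sym.head default (Univ.sym true .cons), false)])) := by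
        have hp : Primrec (fun m : ℕ => if m = 0 then
            [c (Queue.Sym.mark, false), c (Queue.Sym.head default (Univ.sym true .cons), false)]
          else [c (Queue.Sym.mark, false), c (Queue.Sym.cell default, false),
            c (Queue.Sym.head default (Univ.sym true .cons), false)]) :=
          Primrec.ite (PrimrecRel.comp Primrec.eq Primrec.id (Primrec.const 0))
            (Primrec.const _) (Primrec.const _)
        exact hp.to_comp.comp hmod
      exact Computable.list_append.comp hite (Computable.list_reverse.comp hd)
    refine Computable.pair ?_ (Computable.const _)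
    exact Computable.list_cons.comp (Computable.list_cons.comp (Computable.const 0) hw)
      (Computable.const _)
  · intro n
    exact UecPcp.length_eq P Queue.Sym.kill c _
  · intro n u hu a b ha hb hab h1 h2
    exact UecPcp.uec P Queue.Sym.kill c hc hc2 hP1 hP2 (w0 n) (hw0 n) u hu a b ha hb hab h1 h2
  · intro n
    rw [← hM n]
    have hrep : Rep (TM0.init (tape n) : TM0.Cfg _ Λ) (initWord (tape n)) :=
      rep_init (tape n) (by simp [tape])
    rw [← rep_halts M hrep, UecPcp.reach_iff P Queue.Sym.kill (initWord (tape n))]
    constructor
    · rintro ⟨x, hx, hv, he⟩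
      exact UecPcp.solution_reach P Queue.Sym.kill c hc hc2 hP1 hP2 (w0 n) (hw0 n) x hx hv he
    · rintro ⟨b, hb⟩
      exact UecPcp.reach_solution P Queue.Sym.kill c (w0 n) hb



end Run7.h452.GF.Source
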