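import Mathlib

/-!
Context-free grammars with letters coded by natural numbers, big-step derivations, interpretations.
-/

set_option autoImplicit false

namespace Run7.h452.GF

/-- a letter of a grammar: a nonterminal (left) or a terminal (right) -/
abbrev Sym := ℕ ⊕ ℕ

/-- a derivation step -/
def Step (P : Set (ℕ × List Sym)) (u v : List Sym) : Prop :=
  ∃ (l r : List Sym) (A : ℕ) (β : List Sym), (A, β) ∈ P ∧ u = l ++ Sum.inl A :: r ∧
    v = l ++ β ++ r

inductive Yield (P : Set (ℕ × List Sym)) : List Sym → List ℕ → Prop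
  | nil : Yield P [] []
  | ter {a : ℕ} {s : List Sym} {w : List ℕ} : Yield P s w → Yield P (Sum.inr a :: s) (a :: w)
  | non {A : ℕ} {β s : List Sym} {u w : List ℕ} : (A, β) ∈ P → Yield P β u → Yield P s w →
      Yield P (Sum.inl A :: s) (u ++ w)

variable {P P' : Set (ℕ × List Sym)}

theorem Yield.mono (h : P ⊆ P') {s : List Sym} {w : List ℕ} (hy : Yield P s w) : Yield P' s w := by
  induction hy with
  | nil => exact .nil
  | ter _ ih => exact .ter ih
  | non h1 _ _ ih1 ih2 => exact .non (h h1) ih1 ih2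

theorem yield_nil {w : List ℕ} : Yield P [] w ↔ w = [] := by
  constructor
  · intro h; cases h; rfl
  · rintro rfl; exact .nil

theorem yield_ter {a : ℕ} {s : List Sym} {w : List ℕ} :
    Yield P (Sum.inr a :: s) w ↔ ∃ w', w = a :: w' ∧ Yield P s w' := by
  constructor
  · intro h
    cases h with
    | ter h => exact ⟨_, rfl, h⟩
  · rintro ⟨w', rfl, h⟩; exact .ter h

theorem yield_non {A : ℕ} {s : List Sym} {w : List ℕ} :
    Yield P (Sum.inl A :: s) w ↔ ∃ β u v, w = u ++ v ∧ (A, β) ∈ P ∧ Yield P β u ∧ Yield P s v := by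
  constructor
  · intro h
    cases h with
    | non h1 h2 h3 => exact ⟨_, _, _, rfl, h1, h2, h3⟩
  · rintro ⟨β, u, v, rfl, h1, h2, h3⟩; exact .non h1 h2 h3

theorem yield_one {A : ℕ} {w : List ℕ} :
    Yield P [Sum.inl A] w ↔ ∃ β, (A, β) ∈ P ∧ Yield P β w := by
  rw [yield_non]
  constructor
  · rintro ⟨β, u, v, rfl, h1, h2, h3⟩
    rw [yield_nil] at h3
    subst h3
    exact ⟨β, h1, by simpa using h2⟩
  · rintro ⟨β, h1, h2⟩
    exact ⟨β, w, [], by simp, h1, h2, .nil⟩

theorem yield_append {s t : List Sym} {w : List ℕ} :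
    Yield P (s ++ t) w ↔ ∃ u v, w = u ++ v ∧ Yield P s u ∧ Yield P t v := by
  induction s generalizing w with
  | nil =>
    constructor
    · intro h; exact ⟨[], w, rfl, .nil, h⟩
    · rintro ⟨u, v, rfl, h1, h2⟩
      rw [yield_nil] at h1
      subst h1
      exact h2
  | cons x s ih =>
    rcases x with A | a
    · rw [List.cons_append, yield_non]
      constructor
      · rintro ⟨β, u, v, rfl, h1, h2, h3⟩
        obtain ⟨u', v', rfl, h4, h5⟩ := ih.1 h3
        exact ⟨u ++ u', v', by simp, .non h1 h2 h4, h5⟩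
      · rintro ⟨u, v, rfl, h1, h2⟩
        obtain ⟨β, u1, v1, rfl, h3, h4, h5⟩ := yield_non.1 h1
        exact ⟨β, u1, v1 ++ v, by simp, h3, h4, ih.2 ⟨v1, v, rfl, h5, h2⟩⟩
    · rw [List.cons_append, yield_ter]
      constructor
      · rintro ⟨w', rfl, h⟩
        obtain ⟨u', v', rfl, h4, h5⟩ := ih.1 h
        exact ⟨a :: u', v', by simp, .ter h4, h5⟩
      · rintro ⟨u, v, rfl, h1, h2⟩
        obtain ⟨w', rfl, h3⟩ := yield_ter.1 h1
        exact ⟨w' ++ v, by simp, ih.2 ⟨w', v, rfl, h3, h2⟩⟩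

theorem yield_map_inr (w : List ℕ) : Yield P (w.map Sum.inr) w := by
  induction w with
  | nil => exact .nil
  | cons a w ih => exact .ter ih

theorem yield_map_inr_iff {w u : List ℕ} : Yield P (w.map Sum.inr) u ↔ u = w := by
  induction w generalizing u with
  | nil => simp [yield_nil]
  | cons a w ih =>
    rw [List.map_cons, yield_ter]
    constructor
    · rintro ⟨w', rfl, h⟩
      rw [ih.1 h]
    · rintro rfl
      exact ⟨w, rfl, ih.2 rfl⟩

theorem step_yield {s s' : List Sym} {w : List ℕ} (h : Step P s s') (hy : Yield P s' w) :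
    Yield P s w := by
  obtain ⟨l, r, A, β, h1, rfl, rfl⟩ := h
  rw [List.append_assoc, yield_append] at hy
  obtain ⟨u, v, rfl, h2, h3⟩ := hy
  rw [yield_append] at h3
  obtain ⟨u1, v1, rfl, h4, h5⟩ := h3
  rw [yield_append]
  exact ⟨u, u1 ++ v1, rfl, h2, .non h1 h4 h5⟩

theorem Step.append_left {s s' : List Sym} (l : List Sym) (h : Step P s s') :
    Step P (l ++ s) (l ++ s') := by
  obtain ⟨l1, r, A, β, h1, rfl, rfl⟩ := h
  exact ⟨l ++ l1, r, A, β, h1, by simp, by simp⟩

theorem Step.append_right {s s' : List Sym} (r : List Sym) (h : Step P s s') :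
    Step P (s ++ r) (s' ++ r) := by
  obtain ⟨l1, r1, A, β, h1, rfl, rfl⟩ := h
  exact ⟨l1, r1 ++ r, A, β, h1, by simp, by simp⟩

theorem derives_append {s s' t t' : List Sym} (h : Relation.ReflTransGen (Step P) s s')
    (h' : Relation.ReflTransGen (Step P) t t') : Relation.ReflTransGen (Step P) (s ++ t) (s' ++ t') :=
  (Relation.ReflTransGen.lift (p := Step P) (fun x => x ++ t)
    (fun _ _ hx => Step.append_right t hx) _ _ h).trans
    (Relation.ReflTransGen.lift (p := Step P) (fun x => s' ++ x)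
      (fun _ _ hx => Step.append_left s' hx) _ _ h')

theorem derives_iff {s : List Sym} {w : List ℕ} :
    Relation.ReflTransGen (Step P) s (w.map Sum.inr) ↔ Yield P s w := by
  constructor
  · intro h
    induction h using Relation.ReflTransGen.head_induction_on with
    | refl => exact yield_map_inr w
    | head h1 _ ih => exact step_yield h1 ih
  · intro h
    induction h with
    | nil => exact .refl
    | @ter a s w _ ih =>
      have := derives_append (P := P) (s := [Sum.inr a]) (s' := [Sum.inr a]) .refl ih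
      simpa using this
    | @non A β s u w h1 _ _ ih1 ih2 =>
      have h3 : Relation.ReflTransGen (Step P) [Sum.inl A] (u.map Sum.inr) :=
        Relation.ReflTransGen.head ⟨[], [], A, β, h1, by simp, by simp⟩ ih1
      have := derives_append h3 ih2
      simpa using this

/-- semantic soundness -/
def SemL (Sem : ℕ → Set (List ℕ)) : List Sym → List ℕ → Prop
  | [], w => w = []
  | Sum.inr a :: s, w => ∃ w', w = a :: w' ∧ SemL Sem s w'
  | Sum.inl A :: s, w => ∃ u w', w = u ++ w' ∧ u ∈ Sem A ∧ SemL Sem s w'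

theorem yield_sound {Sem : ℕ → Set (List ℕ)}
    (h : ∀ p ∈ P, ∀ w, SemL Sem p.2 w → w ∈ Sem p.1) {s : List Sym} {w : List ℕ}
    (hy : Yield P s w) : SemL Sem s w := by
  induction hy with
  | nil => exact rfl
  | ter _ ih => exact ⟨_, rfl, ih⟩
  | non h1 _ _ ih1 ih2 => exact ⟨_, _, rfl, h _ h1 _ ih1, ih2⟩

/-- letters of an interpretation over letters of the form -/
def Over (σN σT : ℕ → Finset ℕ) : Sym → Sym → Prop
  | Sum.inl A', Sum.inl A => A' ∈ σN A
  | Sum.inr a', Sum.inr a => a' ∈ σT a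
  | _, _ => False

/-- every production of `P'` comes from one of `P` -/
def LiftsTo (σN σT : ℕ → Finset ℕ) (p' p : ℕ × List Sym) : Prop :=
  p'.1 ∈ σN p.1 ∧ List.Forall₂ (Over σN σT) p'.2 p.2

theorem eq_of_mem {σ : ℕ → Finset ℕ} (hσ : ∀ x y, x ≠ y → Disjoint (σ x) (σ y)) {a x y : ℕ}
    (h1 : a ∈ σ x) (h2 : a ∈ σ y) : x = y := by
  by_contra h
  exact (Finset.disjoint_left.1 (hσ x y h)) h1 h2

theorem yield_proj {σN σT : ℕ → Finset ℕ} (hN : ∀ x y, x ≠ y → Disjoint (σN x) (σN y))
    (hP : ∀ p' ∈ P', ∃ p ∈ P, LiftsTo σN σT p' p) {s' : List Sym} {w : List ℕ}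
    (hy : Yield P' s' w) : ∀ {s : List Sym}, List.Forall₂ (Over σN σT) s' s →
      ∃ u, List.Forall₂ (fun a' a => a' ∈ σT a) w u ∧ Yield P s u := by
  induction hy with
  | nil =>
    intro s hs
    rw [List.forall₂_nil_left_iff] at hs
    subst hs
    exact ⟨[], .nil, .nil⟩
  | @ter a s w _ ih =>
    intro t ht
    obtain ⟨b, t', hb, ht', rfl⟩ := List.forall₂_cons_left_iff.1 ht
    obtain ⟨u, hu, hy⟩ := ih ht'
    rcases b with B | b
    · exact absurd hb (by simp [Over])
    · exact ⟨b :: u, .cons hb hu, .ter hy⟩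
  | @non A β s u w h1 _ _ ih1 ih2 =>
    intro t ht
    obtain ⟨b, t', hb, ht', rfl⟩ := List.forall₂_cons_left_iff.1 ht
    rcases b with B | b
    · obtain ⟨p, hp, hp1, hp2⟩ := hP _ h1
      have hb' : A ∈ σN B := hb
      have e : B = p.1 := eq_of_mem hN hb' hp1
      obtain ⟨u1, hu1, hy1⟩ := ih1 hp2
      obtain ⟨u2, hu2, hy2⟩ := ih2 ht'
      refine ⟨u1 ++ u2, List.rel_append hu1 hu2, .non ?_ hy1 hy2⟩
      rw [e]
      exact hp
    · exact absurd hb (by simp [Over])

end Run7.h452.GF
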