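import Pool.Agent.Run7.h452.GF.Forms

/-!
The families of the two forms agree exactly when the pair of tuples has no solution.
-/

set_option autoImplicit false

namespace Run7.h452.GF

variable {k m : ℕ} {h g : List (List ℕ)}

theorem ntm_ge (b i j : ℕ) : 10 ≤ ntm b i j := Nat.le_add_right _ _

theorem prodsA_shape (b : ℕ) (t : List (List ℕ)) :
    ∀ p ∈ prodsA b t m, 8 ≤ p.1 ∧ ∀ x, Sum.inl x ∈ p.2 → x ≠ 0 ∧ x ≠ 6 := by
  intro p hp
  unfold prodsA at hp
  rw [List.mem_cons] at hp
  rcases hp with rfl | hp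
  · refine ⟨Nat.le_add_right _ _, fun x hx => ?_⟩
    simp only [List.mem_cons, reduceCtorEq, Sum.inl.injEq, List.not_mem_nil, or_false,
      false_or] at hx
    omega
  · obtain ⟨i, hi, hp⟩ := List.mem_flatMap.1 hp
    rw [List.mem_cons, List.mem_cons] at hp
    rcases hp with rfl | rfl | hp
    · refine ⟨Nat.le_add_right _ _, fun x hx => ?_⟩
      simp only [List.mem_cons, reduceCtorEq, Sum.inl.injEq, List.not_mem_nil, or_false,
        false_or] at hx
      have := ntm_ge b i 0
      omega
    · refine ⟨le_trans (by norm_num) (ntm_ge b i (t.getD i []).length), fun x hx => ?_⟩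
      simp only [List.mem_cons, Sum.inl.injEq, List.not_mem_nil, or_false] at hx
      omega
    · obtain ⟨j, hj, hp⟩ := List.mem_flatMap.1 hp
      have hge := ntm_ge b i j
      rw [List.mem_cons, List.mem_cons] at hp
      rcases hp with rfl | rfl | hp
      · refine ⟨by simp only; omega, fun x hx => ?_⟩
        simp only [List.mem_cons, Sum.inl.injEq, List.not_mem_nil, or_false] at hx
        omega
      · refine ⟨by simp only; omega, fun x hx => ?_⟩
        simp only [List.mem_cons, reduceCtorEq, Sum.inl.injEq, List.not_mem_nil,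
          or_false] at hx
        have := ntm_ge b i (j + 1)
        omega
      · obtain ⟨c, hc, hp⟩ := List.mem_flatMap.1 hp
        split_ifs at hp with hc2
        · simp at hp
        · rw [List.mem_singleton] at hp
          subst hp
          refine ⟨by simp only; omega, fun x hx => ?_⟩
          simp only [List.mem_cons, reduceCtorEq, Sum.inl.injEq, List.not_mem_nil,
            or_false] at hx
          omega

theorem common_shape : ∀ p ∈ common k m, p.1 ≠ 6 ∧ (∀ x, Sum.inl x ∈ p.2 → x ≠ 0 ∧ x ≠ 6) ∧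
    (p.1 = 0 → ∃ x, p.2 = [Sum.inl x]) ∧
    (p.1 = 5 → ∃ c, c < m ∧ (p.2 = [Sum.inr (ltr c)] ∨ p.2 = [Sum.inr (ltr c), Sum.inl 5])) := by
  intro p hp
  unfold common at hp
  simp only [List.mem_append, List.mem_cons, List.not_mem_nil, or_false, List.mem_flatMap,
    List.mem_range] at hp
  rcases hp with (rfl | rfl | rfl | rfl | rfl | rfl | rfl | rfl) |
    (⟨i, hi, rfl | rfl⟩ | ⟨c, hc, rfl | rfl | rfl⟩)
  · simp
  · simp
  · refine ⟨by simp, fun x hx => ?_, by simp, by simp⟩
    obtain ⟨a, -, ha⟩ := List.mem_map.1 hx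
    exact absurd ha (by simp)
  · simp
  · simp
  · simp
  · simp
  · simp
  · simp
  · simp
  · simp
  · refine ⟨by simp, by simp, by simp, fun _ => ⟨c, hc, Or.inr rfl⟩⟩
  · refine ⟨by simp, by simp, by simp, fun _ => ⟨c, hc, Or.inl rfl⟩⟩

theorem small_cases {p : ℕ × List Sym} (hp : p ∈ pset (small k m h g)) :
    p ∈ common k m ∨ (8 ≤ p.1 ∧ ∀ x, Sum.inl x ∈ p.2 → x ≠ 0 ∧ x ≠ 6) := by
  simp only [pset, small, Set.mem_ofPred_eq, List.mem_append] at hp
  rcases hp with hp | hp | hp
  · exact Or.inl hp
  · exact Or.inr (prodsA_shape 0 h p hp)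
  · exact Or.inr (prodsA_shape 1 g p hp)

theorem large_cases {p : ℕ × List Sym} (hp : p ∈ pset (large k m h g)) :
    p ∈ pset (small k m h g) ∨ p = (0, [Sum.inl 6]) ∨ (p.1 = 6 ∧ (p.2 = [Sum.inr 0] ∨
      p.2 = [Sum.inr 0, Sum.inl 5] ∨ ∃ i, i < k ∧ p.2 = [Sum.inr (idx i), Sum.inl 6])) := by
  simp only [pset, large, extra, Set.mem_ofPred_eq, List.mem_append, List.mem_cons,
    List.not_mem_nil, or_false, List.mem_map, List.mem_range] at hp
  rcases hp with hp | (rfl | rfl | rfl) | ⟨i, hi, rfl⟩
  · exact Or.inl hp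
  · exact Or.inr (Or.inl rfl)
  · exact Or.inr (Or.inr ⟨rfl, Or.inl rfl⟩)
  · exact Or.inr (Or.inr ⟨rfl, Or.inr (Or.inl rfl)⟩)
  · exact Or.inr (Or.inr ⟨rfl, Or.inr (Or.inr ⟨i, hi, rfl⟩)⟩)

theorem large5 {β : List Sym} (hp : (5, β) ∈ pset (large k m h g)) :
    ∃ c, c < m ∧ (β = [Sum.inr (ltr c)] ∨ β = [Sum.inr (ltr c), Sum.inl 5]) := by
  rcases large_cases hp with hp | hp | hp
  · rcases small_cases hp with hp | hp
    · exact (common_shape _ hp).2.2.2 rfl
    · exact absurd hp.1 (by simp)
  · simp at hp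
  · exact absurd hp.1 (by simp)

theorem large6 {β : List Sym} (hp : (6, β) ∈ pset (large k m h g)) :
    β = [Sum.inr 0] ∨ β = [Sum.inr 0, Sum.inl 5] ∨
      ∃ i, i < k ∧ β = [Sum.inr (idx i), Sum.inl 6] := by
  rcases large_cases hp with hp | hp | hp
  · rcases small_cases hp with hp | hp
    · exact absurd rfl (common_shape _ hp).1
    · exact absurd hp.1 (by simp)
  · simp at hp
  · exact hp.2

theorem yield5_large (w : List ℕ) : Yield (pset (large k m h g)) [Sum.inl 5] w →
    ∃ y, InB m y ∧ w = y.map ltr := by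
  induction w with
  | nil =>
    intro hy
    obtain ⟨β, h1, h2⟩ := yield_one.1 hy
    obtain ⟨c, hc, rfl | rfl⟩ := large5 h1
    · obtain ⟨w', hw', -⟩ := yield_ter.1 h2
      simp at hw'
    · obtain ⟨w', hw', -⟩ := yield_ter.1 h2
      simp at hw'
  | cons a w ih =>
    intro hy
    obtain ⟨β, h1, h2⟩ := yield_one.1 hy
    obtain ⟨c, hc, rfl | rfl⟩ := large5 h1
    · obtain ⟨w', hw', h3⟩ := yield_ter.1 h2
      rw [yield_nil] at h3
      subst h3
      exact ⟨[c], inB_cons.2 ⟨hc, inB_nil⟩, by simpa using hw'⟩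
    · obtain ⟨w', hw', h3⟩ := yield_ter.1 h2
      simp only [List.cons.injEq] at hw'
      obtain ⟨rfl, rfl⟩ := hw'
      obtain ⟨y, hyy, rfl⟩ := ih h3
      exact ⟨c :: y, inB_cons.2 ⟨hc, hyy⟩, by simp⟩

theorem yield6_large (w : List ℕ) : Yield (pset (large k m h g)) [Sum.inl 6] w →
    w ∈ RR k m := by
  induction w with
  | nil =>
    intro hy
    obtain ⟨β, h1, h2⟩ := yield_one.1 hy
    obtain rfl | rfl | ⟨i, hi, rfl⟩ := large6 h1
    all_goals
      obtain ⟨w', hw', -⟩ := yield_ter.1 h2
      simp at hw'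
  | cons a w ih =>
    intro hy
    obtain ⟨β, h1, h2⟩ := yield_one.1 hy
    obtain rfl | rfl | ⟨i, hi, rfl⟩ := large6 h1
    · obtain ⟨w', hw', h3⟩ := yield_ter.1 h2
      rw [yield_nil] at h3
      subst h3
      rw [hw']
      exact ⟨[], [], inB_nil, inB_nil, by simp [wordOf]⟩
    · obtain ⟨w', hw', h3⟩ := yield_ter.1 h2
      obtain ⟨y, hy, rfl⟩ := yield5_large _ h3
      rw [hw']
      refine ⟨[], y.reverse, inB_nil, fun i hi => hy i (List.mem_reverse.1 hi), ?_⟩
      simp [wordOf]
    · obtain ⟨w', hw', h3⟩ := yield_ter.1 h2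
      simp only [List.cons.injEq] at hw'
      obtain ⟨rfl, rfl⟩ := hw'
      obtain ⟨x, y, hx, hyy, rfl⟩ := ih h3
      exact ⟨i :: x, y, inB_cons.2 ⟨hi, hx⟩, hyy, by rw [wordOf_cons]⟩

theorem small_sub_large : pset (small k m h g) ⊆ pset (large k m h g) := by
  intro p hp
  simp only [pset, large, Set.mem_ofPred_eq, List.mem_append] at hp ⊢
  exact Or.inl hp

/-- there is a common value of the two morphisms -/
def Sol (k : ℕ) (h g : List (List ℕ)) : Prop := ∃ x, x ≠ [] ∧ InB k x ∧ app h x = app g x

theorem ctx (H : Good k m h g) (hns : ¬ Sol k h g) :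
    Ctx (pset (small k m h g)) (pset (large k m h g)) where
  sub := small_sub_large
  diff := by
    intro p hp hn
    rcases large_cases hp with hp | hp | hp
    · exact absurd hp hn
    · exact Or.inr hp
    · exact Or.inl hp.1
  no6 := by
    intro p hp
    rcases small_cases hp with hp | hp
    · exact (common_shape _ hp).1
    · omega
  rhs := by
    intro p hp
    rcases small_cases hp with hp | hp
    · exact (common_shape _ hp).2.1
    · exact hp.2
  start := by
    intro p hp
    rcases small_cases hp with hp | hp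
    · exact (common_shape _ hp).2.2.1
    · intro h0
      omega
  reg := by
    rintro ⟨A, β⟩ hp (h5 | h6)
    · simp only at h5
      subst h5
      obtain ⟨c, hc, rfl | rfl⟩ := large5 hp
      · exact Or.inl ⟨_, rfl⟩
      · exact Or.inr ⟨_, _, rfl, Or.inl rfl⟩
    · simp only at h6
      subst h6
      obtain rfl | rfl | ⟨i, hi, rfl⟩ := large6 hp
      · exact Or.inl ⟨_, rfl⟩
      · exact Or.inr ⟨_, _, rfl, Or.inl rfl⟩
      · exact Or.inr ⟨_, _, rfl, Or.inr rfl⟩
  s2 := mem_common (by simp [common])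
  key := by
    intro u hu
    obtain ⟨x, y, hx, hy, rfl⟩ := yield6_large u hu
    refine small_complete H x y hx hy ?_
    by_cases h0 : x = []
    · exact Or.inl h0
    · refine Or.inr fun he => hns ⟨x, h0, hx, he⟩

/-! ### the other direction -/

theorem count_idx (x : List ℕ) : (x.map idx).count 0 = 0 := by
  rw [List.count_eq_zero]
  intro h
  obtain ⟨i, -, hi⟩ := List.mem_map.1 h
  unfold idx at hi
  omega

theorem count_ltr (x : List ℕ) : (x.map ltr).count 0 = 0 := by
  rw [List.count_eq_zero]
  intro h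
  obtain ⟨i, -, hi⟩ := List.mem_map.1 h
  unfold ltr at hi
  omega

theorem count_wordOf (x y : List ℕ) : (wordOf x y).count 0 = 1 := by
  unfold wordOf
  rw [List.count_append, List.count_cons, count_idx, List.count_reverse, count_ltr]
  simp

theorem wordOf_inj {x y x' y' : List ℕ} (he : wordOf x y = wordOf x' y') : x = x' ∧ y = y' := by
  induction x generalizing x' with
  | nil =>
    cases x' with
    | nil =>
      simp only [wordOf, List.map_nil, List.nil_append, List.cons.injEq, true_and] at he
      have h1 := List.reverse_injective he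
      refine ⟨rfl, List.map_injective_iff.2 ?_ h1⟩
      intro a b hab
      unfold ltr at hab
      omega
    | cons i x' =>
      exfalso
      simp only [wordOf, List.map_nil, List.nil_append, List.map_cons, List.cons_append,
        List.cons.injEq] at he
      have := he.1
      unfold idx at this
      omega
  | cons i x ih =>
    cases x' with
    | nil =>
      exfalso
      simp only [wordOf, List.map_nil, List.nil_append, List.map_cons, List.cons_append,
        List.cons.injEq] at he
      have := he.1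
      unfold idx at this
      omega
    | cons i' x' =>
      rw [wordOf_cons, wordOf_cons, List.cons.injEq] at he
      obtain ⟨h1, h2⟩ := ih he.2
      refine ⟨?_, h2⟩
      have : i = i' := by have := he.1; unfold idx at this; omega
      rw [this, h1]

theorem forall₂_unique {τ : ℕ → Finset ℕ} (hτ : ∀ x y, x ≠ y → Disjoint (τ x) (τ y))
    {w u u' : List ℕ} (h : List.Forall₂ (fun a' a => a' ∈ τ a) w u)
    (h' : List.Forall₂ (fun a' a => a' ∈ τ a) w u') : u = u' := by
  induction h generalizing u' with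
  | nil => rw [List.forall₂_nil_left_iff] at h'; exact h'.symm
  | cons h1 _ ih =>
    obtain ⟨b, t', hb, ht', rfl⟩ := List.forall₂_cons_left_iff.1 h'
    rw [eq_of_mem hτ h1 hb, ih ht']

theorem forall₂_append_left {R : ℕ → ℕ → Prop} {w u v : List ℕ}
    (h : List.Forall₂ R (u ++ v) w) : ∃ w1 w2, w = w1 ++ w2 ∧ List.Forall₂ R u w1 ∧
      List.Forall₂ R v w2 := by
  induction u generalizing w with
  | nil => exact ⟨[], w, rfl, .nil, h⟩
  | cons a u ih =>
    rw [List.cons_append] at h
    obtain ⟨b, w', hb, hw, rfl⟩ := List.forall₂_cons_left_iff.1 h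
    obtain ⟨w1, w2, rfl, h1, h2⟩ := ih hw
    exact ⟨b :: w1, w2, rfl, .cons hb h1, h2⟩

theorem NE_sub {f : List ℕ → List ℕ} : NE k m f ⊆ RR k m := by
  rintro w ⟨x, y, hx, hy, -, rfl⟩
  exact ⟨x, y, hx, hy, rfl⟩

theorem large_w0 : Yield (pset (large k m h g)) [Sum.inl 0] (w0 k m) := by
  refine Yield.mono small_sub_large ?_
  refine yield_one.2 ⟨[Sum.inl 1], mem_common (by simp [common]), ?_⟩
  exact yield_one.2 ⟨_, mem_common (by simp [common]), yield_map_inr _⟩

theorem mem_large {p : ℕ × List Sym} (hp : p ∈ extra k) : p ∈ pset (large k m h g) := by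
  simp only [pset, large, Set.mem_ofPred_eq, List.mem_append]
  exact Or.inr hp

theorem large_RR (x y : List ℕ) (hx : InB k x) (hy : InB m y) :
    Yield (pset (large k m h g)) [Sum.inl 6] (wordOf x y) := by
  induction x with
  | nil =>
    by_cases h0 : y = []
    · subst h0
      exact yield_one.2 ⟨[Sum.inr 0], mem_large (by simp [extra]), .ter .nil⟩
    · refine yield_one.2 ⟨[Sum.inr 0, Sum.inl 5], mem_large (by simp [extra]), ?_⟩
      have : wordOf [] y = 0 :: (y.reverse.map ltr) := by simp [wordOf]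
      rw [this]
      exact .ter (Yield.mono small_sub_large
        (yE _ (by simpa using h0) (fun i hi => hy i (List.mem_reverse.1 hi))))
  | cons i x ih =>
    rw [wordOf_cons]
    obtain ⟨hi, hx'⟩ := inB_cons.1 hx
    refine yield_one.2 ⟨[Sum.inr (idx i), Sum.inl 6], mem_large ?_, .ter (ih hx')⟩
    simp only [extra, List.mem_append, List.mem_map, List.mem_range]
    exact Or.inr ⟨i, hi, rfl⟩

theorem app_inB (H : Good k m h g) (x : List ℕ) : InB m (app h x) := by
  intro c hc
  obtain ⟨i, -, hi⟩ := List.mem_flatMap.1 hc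
  exact H.mh i c hi

/-- an interpretation of the small form never has the language of the large form, if there is a
solution -/
theorem no_int (H : Good k m h g) (hs : Sol k h g) {σN σT : ℕ → Finset ℕ} {z' : ℕ}
    {P' : Set (ℕ × List Sym)} (hI : IntS σN σT z' P' 0 (pset (small k m h g)))
    (hl : ∀ w, Yield P' [Sum.inl z'] w ↔ Yield (pset (large k m h g)) [Sum.inl 0] w) : False := by
  obtain ⟨x, hx0, hx, he⟩ := hs
  have proj : ∀ w, Yield (pset (large k m h g)) [Sum.inl 0] w →
      ∃ u, List.Forall₂ (fun a' a => a' ∈ σT a) w u ∧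
        Yield (pset (small k m h g)) [Sum.inl 0] u := by
    intro w hw
    exact yield_proj hI.dN hI.pr ((hl w).2 hw) (s := [Sum.inl 0]) (.cons hI.st .nil)
  obtain ⟨u0, hu0, hy0⟩ := proj _ large_w0
  have hw0 : u0 = w0 k m := by
    have hnot : u0 ∉ RR k m := by
      rintro ⟨a, b, -, -, rfl⟩
      obtain ⟨u1, u2, h1, h2, h3⟩ := forall₂_append_left (u := allT k m) (v := allT k m) hu0
      have e := forall₂_unique hI.dT h2 h3
      subst e
      have h4 := count_wordOf a b
      rw [h1, List.count_append] at h4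
      omega
    rcases yield_small_start H hy0 with h1 | h1 | h1 | h1
    · exact h1
    · exact absurd (h1 ▸ ⟨[], [], inB_nil, inB_nil, by simp [wordOf]⟩ : u0 ∈ RR k m) hnot
    · exact absurd (NE_sub h1) hnot
    · exact absurd (NE_sub h1) hnot
  subst hw0
  have fix : ∀ a ∈ allT k m, a ∈ σT a := by
    intro a ha
    have : ∀ l : List ℕ, List.Forall₂ (fun a' a => a' ∈ σT a) l l → ∀ a ∈ l, a ∈ σT a := by
      intro l
      induction l with
      | nil => intro _ a ha; simp at ha
      | cons b l ih =>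
        intro hl a ha
        rw [List.forall₂_cons] at hl
        rcases List.mem_cons.1 ha with rfl | ha
        · exact hl.1
        · exact ih hl.2 a ha
    exact this _ hu0 a (List.mem_append_left _ ha)
  have hyb : InB m (app h x) := app_inB H x
  have hw : Yield (pset (large k m h g)) [Sum.inl 0] (wordOf x (app h x)) :=
    yield_one.2 ⟨[Sum.inl 6], mem_large (by simp [extra]), large_RR x _ hx hyb⟩
  obtain ⟨u, hu, hyu⟩ := proj _ hw
  have hid : List.Forall₂ (fun a' a => a' ∈ σT a) (wordOf x (app h x)) (wordOf x (app h x)) := by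
    rw [List.forall₂_same]
    intro a ha
    apply fix
    unfold wordOf at ha
    unfold allT
    rcases List.mem_append.1 ha with ha | ha
    · obtain ⟨i, hi, rfl⟩ := List.mem_map.1 ha
      refine List.mem_cons_of_mem _ (List.mem_append_left _ (List.mem_map.2 ⟨i, ?_, rfl⟩))
      exact List.mem_range.2 (hx i hi)
    · rcases List.mem_cons.1 ha with rfl | ha
      · exact List.mem_cons_self
      · obtain ⟨c, hc, rfl⟩ := List.mem_map.1 (List.mem_reverse.1 ha)
        refine List.mem_cons_of_mem _ (List.mem_append_right _ (List.mem_map.2 ⟨c, ?_, rfl⟩))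
        exact List.mem_range.2 (hyb c hc)
  have hueq := forall₂_unique hI.dT hu hid
  subst hueq
  rcases yield_small_start H hyu with h1 | h1 | ⟨x', y', -, -, hne, h1⟩ | ⟨x', y', -, -, hne, h1⟩
  · have h4 := count_wordOf x (app h x)
    rw [h1] at h4
    unfold w0 at h4
    rw [List.count_append] at h4
    omega
  · have h5 : [0] = wordOf [] [] := by simp [wordOf]
    rw [h5] at h1
    exact hx0 (wordOf_inj h1).1
  · obtain ⟨e1, e2⟩ := wordOf_inj h1
    exact hne (by rw [← e1, ← e2])
  · obtain ⟨e1, e2⟩ := wordOf_inj h1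
    exact hne (by rw [← e1, ← e2, he])

end Run7.h452.GF
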