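import Pool.Agent.Run7.h452.GF.Trans

/-!
The two forms attached to a pair of tuples of words.
-/

set_option autoImplicit false

namespace Run7.h452.GF

def idx (i : ℕ) : ℕ := 2 * i + 1
def ltr (c : ℕ) : ℕ := 2 * c + 2

def ntm (b i j : ℕ) : ℕ := 10 + Nat.pair b (Nat.pair i j)

/-- the terminal word for `x`, `y` -/
def wordOf (x y : List ℕ) : List ℕ := x.map idx ++ 0 :: (y.map ltr).reverse

/-- all terminals -/
def allT (k m : ℕ) : List ℕ := 0 :: ((List.range k).map idx ++ (List.range m).map ltr)

def w0 (k m : ℕ) : List ℕ := allT k m ++ allT k m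

def app (t : List (List ℕ)) (x : List ℕ) : List ℕ := x.flatMap (fun i => t.getD i [])

/-- the comparison part -/
def prodsA (b : ℕ) (t : List (List ℕ)) (m : ℕ) : List (ℕ × List Sym) :=
  (8 + b, [Sum.inr 0, Sum.inl 5]) :: (List.range t.length).flatMap (fun i =>
    (8 + b, [Sum.inr (idx i), Sum.inl (ntm b i 0)]) ::
    (ntm b i (t.getD i []).length, [Sum.inl (8 + b)]) ::
    (List.range (t.getD i []).length).flatMap (fun j =>
      (ntm b i j, [Sum.inl 4]) ::
      (ntm b i j, [Sum.inl (ntm b i (j + 1)), Sum.inr (ltr ((t.getD i []).getD j 0))]) ::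
      (List.range m).flatMap (fun c => if c = (t.getD i []).getD j 0 then [] else
        [(ntm b i j, [Sum.inl 3, Sum.inr (ltr c)])])))

def common (k m : ℕ) : List (ℕ × List Sym) :=
  [(0, [Sum.inl 1]), (0, [Sum.inl 2]), (1, (w0 k m).map Sum.inr), (2, [Sum.inr 0]),
    (2, [Sum.inl 8]), (2, [Sum.inl 9]), (3, [Sum.inr 0]), (4, [Sum.inr 0])] ++
  ((List.range k).flatMap (fun i => [(3, [Sum.inr (idx i), Sum.inl 3]),
    (4, [Sum.inr (idx i), Sum.inl 4])]) ++
  (List.range m).flatMap (fun c => [(3, [Sum.inl 3, Sum.inr (ltr c)]),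
    (5, [Sum.inr (ltr c), Sum.inl 5]), (5, [Sum.inr (ltr c)])]))

def extra (k : ℕ) : List (ℕ × List Sym) :=
  [(0, [Sum.inl 6]), (6, [Sum.inr 0]), (6, [Sum.inr 0, Sum.inl 5])] ++
  (List.range k).map (fun i => (6, [Sum.inr (idx i), Sum.inl 6]))

def small (k m : ℕ) (h g : List (List ℕ)) : List (ℕ × List Sym) :=
  common k m ++ (prodsA 0 h m ++ prodsA 1 g m)

def large (k m : ℕ) (h g : List (List ℕ)) : List (ℕ × List Sym) :=
  small k m h g ++ extra k

/-- the set of the productions -/
def pset (l : List (ℕ × List Sym)) : Set (ℕ × List Sym) := {p | p ∈ l}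

variable {k m : ℕ} {h g : List (List ℕ)}

/-! ### semantics -/

def InB (n : ℕ) (x : List ℕ) : Prop := ∀ i ∈ x, i < n

def RR (k m : ℕ) : Set (List ℕ) := {w | ∃ x y, InB k x ∧ InB m y ∧ w = wordOf x y}

def NE (k m : ℕ) (f : List ℕ → List ℕ) : Set (List ℕ) :=
  {w | ∃ x y, InB k x ∧ InB m y ∧ y ≠ f x ∧ w = wordOf x y}

def Sem (k m : ℕ) (h g : List (List ℕ)) (A : ℕ) : Set (List ℕ) :=
  if A = 0 then {w0 k m} ∪ ({[0]} ∪ (NE k m (app h) ∪ NE k m (app g))) else
  if A = 1 then {w0 k m} else
  if A = 2 then {[0]} ∪ (NE k m (app h) ∪ NE k m (app g)) else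
  if A = 3 then RR k m else
  if A = 4 then {w | ∃ x, InB k x ∧ w = wordOf x []} else
  if A = 5 then {w | ∃ y, y ≠ [] ∧ InB m y ∧ w = y.map ltr} else
  if A = 8 then NE k m (app h) else
  if A = 9 then NE k m (app g) else
  if 10 ≤ A then
    NE k m (fun x => (List.drop (A - 10).unpair.2.unpair.2
      ((if (A - 10).unpair.1 = 0 then h else g).getD (A - 10).unpair.2.unpair.1 [])) ++
      app (if (A - 10).unpair.1 = 0 then h else g) x)
  else Set.univ

theorem sem_ntm (b i j : ℕ) : Sem k m h g (ntm b i j) =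
    NE k m (fun x => (List.drop j ((if b = 0 then h else g).getD i [])) ++
      app (if b = 0 then h else g) x) := by
  unfold Sem ntm
  simp only [show ¬ (10 + Nat.pair b (Nat.pair i j) = 0) by omega,
    show ¬ (10 + Nat.pair b (Nat.pair i j) = 1) by omega,
    show ¬ (10 + Nat.pair b (Nat.pair i j) = 2) by omega,
    show ¬ (10 + Nat.pair b (Nat.pair i j) = 3) by omega,
    show ¬ (10 + Nat.pair b (Nat.pair i j) = 4) by omega,
    show ¬ (10 + Nat.pair b (Nat.pair i j) = 5) by omega,
    show ¬ (10 + Nat.pair b (Nat.pair i j) = 8) by omega,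
    show ¬ (10 + Nat.pair b (Nat.pair i j) = 9) by omega,
    show (10 ≤ 10 + Nat.pair b (Nat.pair i j)) by omega, if_false, if_true,
    Nat.add_sub_cancel_left, Nat.unpair_pair]

theorem sem_A (b : ℕ) (hb : b = 0 ∨ b = 1) : Sem k m h g (8 + b) =
    NE k m (app (if b = 0 then h else g)) := by
  rcases hb with rfl | rfl <;> simp [Sem]

theorem wordOf_cons (i : ℕ) (x y : List ℕ) : wordOf (i :: x) y = idx i :: wordOf x y := by
  simp [wordOf]

theorem wordOf_snoc (c : ℕ) (x y : List ℕ) : wordOf x (c :: y) = wordOf x y ++ [ltr c] := by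
  simp [wordOf]

theorem app_cons (t : List (List ℕ)) (i : ℕ) (x : List ℕ) :
    app t (i :: x) = t.getD i [] ++ app t x := by simp [app]

theorem inB_cons {n i : ℕ} {x : List ℕ} : InB n (i :: x) ↔ i < n ∧ InB n x := by
  simp [InB]

theorem inB_nil {n : ℕ} : InB n [] := by simp [InB]

theorem semA_sound (b : ℕ) (hb : b = 0 ∨ b = 1) (t : List (List ℕ))
    (ht : (if b = 0 then h else g) = t) (hk : t.length ≤ k)
    (hm : ∀ i, ∀ c ∈ t.getD i [], c < m) :
    ∀ p ∈ prodsA b t m, ∀ w, SemL (Sem k m h g) p.2 w → w ∈ Sem k m h g p.1 := by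
  intro p hp w hw
  unfold prodsA at hp
  rw [List.mem_cons] at hp
  rcases hp with rfl | hp
  · simp only [SemL] at hw
    obtain ⟨w', rfl, u, w'', rfl, hu, rfl⟩ := hw
    have hu' : ∃ y, y ≠ [] ∧ InB m y ∧ u = y.map ltr := by simpa [Sem] using hu
    obtain ⟨y, hy, hy2, rfl⟩ := hu'
    rw [sem_A b hb]
    refine ⟨[], y.reverse, inB_nil, ?_, ?_, ?_⟩
    · intro i hi
      exact hy2 i (List.mem_reverse.1 hi)
    · simpa [app] using hy
    · simp [wordOf]
  · obtain ⟨i, hi, hp⟩ := List.mem_flatMap.1 hp
    rw [List.mem_range] at hi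
    have hik : i < k := lt_of_lt_of_le hi hk
    rw [List.mem_cons, List.mem_cons] at hp
    rcases hp with rfl | rfl | hp
    · simp only [SemL] at hw
      obtain ⟨w', rfl, u, w'', rfl, hu, rfl⟩ := hw
      rw [sem_ntm, ht] at hu
      obtain ⟨x, y, hx, hy, hne, rfl⟩ := hu
      rw [sem_A b hb, ht]
      refine ⟨i :: x, y, inB_cons.2 ⟨hik, hx⟩, hy, ?_, ?_⟩
      · rw [app_cons]
        simpa using hne
      · rw [wordOf_cons]; simp
    · simp only [SemL] at hw
      obtain ⟨u, w'', rfl, hu, rfl⟩ := hw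
      rw [sem_A b hb, ht] at hu
      obtain ⟨x, y, hx, hy, hne, rfl⟩ := hu
      simp only
      rw [sem_ntm, ht]
      refine ⟨x, y, hx, hy, ?_, by simp⟩
      simpa using hne
    · obtain ⟨j, hj, hp⟩ := List.mem_flatMap.1 hp
      rw [List.mem_range] at hj
      have hd : List.drop j (t.getD i []) = (t.getD i []).getD j 0 ::
          List.drop (j + 1) (t.getD i []) := by
        rw [List.drop_eq_getElem_cons hj, List.getD_eq_getElem _ _ hj]
      rw [List.mem_cons, List.mem_cons] at hp
      rcases hp with rfl | rfl | hp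
      · simp only [SemL] at hw
        obtain ⟨u, w'', rfl, hu, rfl⟩ := hw
        have hu' : ∃ x, InB k x ∧ u = wordOf x [] := by simpa [Sem] using hu
        obtain ⟨x, hx, rfl⟩ := hu'
        simp only
        rw [sem_ntm, ht]
        refine ⟨x, [], hx, inB_nil, ?_, by simp⟩
        rw [hd]
        simp
      · simp only [SemL] at hw
        obtain ⟨u, w'', rfl, hu, w3, rfl, rfl⟩ := hw
        rw [sem_ntm, ht] at hu
        obtain ⟨x, y, hx, hy, hne, rfl⟩ := hu
        simp only
        rw [sem_ntm, ht]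
        have hc : (t.getD i []).getD j 0 < m := by
          apply hm i
          rw [List.getD_eq_getElem _ _ hj]
          exact List.getElem_mem hj
        refine ⟨x, (t.getD i []).getD j 0 :: y, hx, inB_cons.2 ⟨hc, hy⟩, ?_, ?_⟩
        · rw [hd]
          intro he
          simp only [List.cons_append, List.cons.injEq, true_and] at he
          exact hne he
        · rw [wordOf_snoc]
      · obtain ⟨c, hc, hp⟩ := List.mem_flatMap.1 hp
        rw [List.mem_range] at hc
        split_ifs at hp with hc2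
        · simp at hp
        · rw [List.mem_singleton] at hp
          subst hp
          simp only [SemL] at hw
          obtain ⟨u, w'', rfl, hu, w3, rfl, rfl⟩ := hw
          have hu' : ∃ x y, InB k x ∧ InB m y ∧ u = wordOf x y := by simpa [Sem, RR] using hu
          obtain ⟨x, y, hx, hy, rfl⟩ := hu'
          simp only
          rw [sem_ntm, ht]
          refine ⟨x, c :: y, hx, inB_cons.2 ⟨hc, hy⟩, ?_, ?_⟩
          · rw [hd]
            intro he
            simp only [List.cons_append, List.cons.injEq] at he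
            exact hc2 he.1
          · rw [wordOf_snoc]

theorem common_sound :
    ∀ p ∈ common k m, ∀ w, SemL (Sem k m h g) p.2 w → w ∈ Sem k m h g p.1 := by
  intro p hp w hw
  unfold common at hp
  simp only [List.mem_append, List.mem_cons, List.not_mem_nil, or_false, List.mem_flatMap,
    List.mem_range] at hp
  rcases hp with (rfl | rfl | rfl | rfl | rfl | rfl | rfl | rfl) |
    (⟨i, hi, rfl | rfl⟩ | ⟨c, hc, rfl | rfl | rfl⟩)
  · simp only [SemL] at hw
    obtain ⟨u, w'', rfl, hu, rfl⟩ := hw
    have : u = w0 k m := by simpa [Sem] using hu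
    subst this
    simp [Sem]
  · simp only [SemL] at hw
    obtain ⟨u, w'', rfl, hu, rfl⟩ := hw
    have : u ∈ {[0]} ∪ (NE k m (app h) ∪ NE k m (app g)) := by simpa [Sem] using hu
    simp only [List.append_nil]
    simp only [Sem, if_true]
    exact Or.inr this
  · have : w = w0 k m := by
      simp only at hw
      have key : ∀ (l : List ℕ) (w : List ℕ), SemL (Sem k m h g) (l.map Sum.inr) w → w = l := by
        intro l
        induction l with
        | nil => intro w hw; exact hw
        | cons a l ih =>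
          intro w hw
          obtain ⟨w', rfl, h⟩ := hw
          rw [ih _ h]
      exact key _ _ hw
    subst this
    simp [Sem]
  · simp only [SemL] at hw
    obtain ⟨w', rfl, rfl⟩ := hw
    simp [Sem]
  · simp only [SemL] at hw
    obtain ⟨u, w'', rfl, hu, rfl⟩ := hw
    have : u ∈ NE k m (app h) := by simpa [Sem] using hu
    simp [Sem, this]
  · simp only [SemL] at hw
    obtain ⟨u, w'', rfl, hu, rfl⟩ := hw
    have : u ∈ NE k m (app g) := by simpa [Sem] using hu
    simp [Sem, this]
  · simp only [SemL] at hw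
    obtain ⟨w', rfl, rfl⟩ := hw
    have : [0] ∈ RR k m := ⟨[], [], inB_nil, inB_nil, by simp [wordOf]⟩
    simpa [Sem] using this
  · simp only [SemL] at hw
    obtain ⟨w', rfl, rfl⟩ := hw
    have : ∃ x, InB k x ∧ [0] = wordOf x [] := ⟨[], inB_nil, by simp [wordOf]⟩
    simpa [Sem] using this
  · simp only [SemL] at hw
    obtain ⟨w', rfl, u, w'', rfl, hu, rfl⟩ := hw
    have hu' : ∃ x y, InB k x ∧ InB m y ∧ u = wordOf x y := by simpa [Sem, RR] using hu
    obtain ⟨x, y, hx, hy, rfl⟩ := hu'
    have : idx i :: (wordOf x y ++ []) ∈ RR k m :=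
      ⟨i :: x, y, inB_cons.2 ⟨hi, hx⟩, hy, by rw [wordOf_cons]; simp⟩
    simpa [Sem] using this
  · simp only [SemL] at hw
    obtain ⟨w', rfl, u, w'', rfl, hu, rfl⟩ := hw
    have hu' : ∃ x, InB k x ∧ u = wordOf x [] := by simpa [Sem] using hu
    obtain ⟨x, hx, rfl⟩ := hu'
    have : ∃ x', InB k x' ∧ idx i :: (wordOf x []) = wordOf x' [] :=
      ⟨i :: x, inB_cons.2 ⟨hi, hx⟩, by rw [wordOf_cons]⟩
    simpa [Sem] using this
  · simp only [SemL] at hw
    obtain ⟨u, w'', rfl, hu, w3, rfl, rfl⟩ := hw
    have hu' : ∃ x y, InB k x ∧ InB m y ∧ u = wordOf x y := by simpa [Sem, RR] using hu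
    obtain ⟨x, y, hx, hy, rfl⟩ := hu'
    have : wordOf x y ++ [ltr c] ∈ RR k m :=
      ⟨x, c :: y, hx, inB_cons.2 ⟨hc, hy⟩, by rw [wordOf_snoc]⟩
    simpa [Sem] using this
  · simp only [SemL] at hw
    obtain ⟨w', rfl, u, w'', rfl, hu, rfl⟩ := hw
    have hu' : ∃ y, y ≠ [] ∧ InB m y ∧ u = y.map ltr := by simpa [Sem] using hu
    obtain ⟨y, hy, hy2, rfl⟩ := hu'
    have : ∃ y', y' ≠ [] ∧ InB m y' ∧ ltr c :: (y.map ltr) = y'.map ltr :=
      ⟨c :: y, by simp, inB_cons.2 ⟨hc, hy2⟩, by simp⟩
    simpa [Sem] using this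
  · simp only [SemL] at hw
    obtain ⟨w', rfl, rfl⟩ := hw
    have : ∃ y', y' ≠ [] ∧ InB m y' ∧ [ltr c] = y'.map ltr :=
      ⟨[c], by simp, inB_cons.2 ⟨hc, inB_nil⟩, by simp⟩
    simpa [Sem] using this

/-- the data which make the forms work -/
structure Good (k m : ℕ) (h g : List (List ℕ)) : Prop where
  lh : h.length = k
  lg : g.length = k
  mh : ∀ i, ∀ c ∈ h.getD i [], c < m
  mg : ∀ i, ∀ c ∈ g.getD i [], c < m

theorem small_sound (H : Good k m h g) :
    ∀ p ∈ pset (small k m h g), ∀ w, SemL (Sem k m h g) p.2 w → w ∈ Sem k m h g p.1 := by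
  intro p hp
  unfold small pset at hp
  simp only [Set.mem_ofPred_eq, List.mem_append] at hp
  rcases hp with hp | hp | hp
  · exact common_sound p hp
  · exact semA_sound 0 (Or.inl rfl) h (by simp) H.lh.le H.mh p hp
  · exact semA_sound 1 (Or.inr rfl) g (by simp) H.lg.le H.mg p hp

theorem yield_small_start (H : Good k m h g) {w : List ℕ}
    (hw : Yield (pset (small k m h g)) [Sum.inl 0] w) :
    w = w0 k m ∨ w = [0] ∨ w ∈ NE k m (app h) ∨ w ∈ NE k m (app g) := by
  have h1 := yield_sound (small_sound H) hw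
  simp only [SemL] at h1
  obtain ⟨u, w'', rfl, hu, rfl⟩ := h1
  have : u = [0] ∨ u = w0 k m ∨ u ∈ NE k m (app h) ∨ u ∈ NE k m (app g) := by
    simpa [Sem] using hu
  simp only [List.append_nil]
  tauto

/-! ### completeness -/

theorem mem_common {p : ℕ × List Sym} (hp : p ∈ common k m) : p ∈ pset (small k m h g) := by
  simp only [pset, small, Set.mem_ofPred_eq, List.mem_append]
  exact Or.inl hp

theorem yB (x y : List ℕ) (hx : InB k x) (hy : InB m y) :
    Yield (pset (small k m h g)) [Sum.inl 3] (wordOf x y) := by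
  induction x with
  | nil =>
    induction y with
    | nil =>
      exact yield_one.2 ⟨[Sum.inr 0], mem_common (by simp [common]), .ter .nil⟩
    | cons c y ih =>
      rw [wordOf_snoc]
      obtain ⟨hc, hy'⟩ := inB_cons.1 hy
      refine yield_one.2 ⟨[Sum.inl 3, Sum.inr (ltr c)], mem_common ?_, ?_⟩
      · simp only [common, List.mem_append, List.mem_flatMap, List.mem_range]
        exact Or.inr (Or.inr ⟨c, hc, by simp⟩)
      · have := yield_append.2 ⟨_, _, rfl, ih hy', yield_map_inr (P := pset (small k m h g)) [ltr c]⟩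
        exact this
  | cons i x ih =>
    rw [wordOf_cons]
    obtain ⟨hi, hx'⟩ := inB_cons.1 hx
    refine yield_one.2 ⟨[Sum.inr (idx i), Sum.inl 3], mem_common ?_, .ter (ih hx')⟩
    simp only [common, List.mem_append, List.mem_flatMap, List.mem_range]
    exact Or.inr (Or.inl ⟨i, hi, by simp⟩)

theorem yC (x : List ℕ) (hx : InB k x) :
    Yield (pset (small k m h g)) [Sum.inl 4] (wordOf x []) := by
  induction x with
  | nil =>
    exact yield_one.2 ⟨[Sum.inr 0], mem_common (by simp [common]), .ter .nil⟩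
  | cons i x ih =>
    rw [wordOf_cons]
    obtain ⟨hi, hx'⟩ := inB_cons.1 hx
    refine yield_one.2 ⟨[Sum.inr (idx i), Sum.inl 4], mem_common ?_, .ter (ih hx')⟩
    simp only [common, List.mem_append, List.mem_flatMap, List.mem_range]
    exact Or.inr (Or.inl ⟨i, hi, by simp⟩)

theorem yE (y : List ℕ) (hne : y ≠ []) (hy : InB m y) :
    Yield (pset (small k m h g)) [Sum.inl 5] (y.map ltr) := by
  induction y with
  | nil => exact absurd rfl hne
  | cons c y ih =>
    obtain ⟨hc, hy'⟩ := inB_cons.1 hy
    by_cases h0 : y = []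
    · subst h0
      refine yield_one.2 ⟨[Sum.inr (ltr c)], mem_common ?_, .ter .nil⟩
      simp only [common, List.mem_append, List.mem_flatMap, List.mem_range]
      exact Or.inr (Or.inr ⟨c, hc, by simp⟩)
    · refine yield_one.2 ⟨[Sum.inr (ltr c), Sum.inl 5], mem_common ?_, .ter (ih h0 hy')⟩
      simp only [common, List.mem_append, List.mem_flatMap, List.mem_range]
      exact Or.inr (Or.inr ⟨c, hc, by simp⟩)

theorem mem_A (b : ℕ) (hb : b = 0 ∨ b = 1) {p : ℕ × List Sym}
    (hp : p ∈ prodsA b (if b = 0 then h else g) m) : p ∈ pset (small k m h g) := by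
  simp only [pset, small, Set.mem_ofPred_eq, List.mem_append]
  rcases hb with rfl | rfl
  · exact Or.inr (Or.inl (by simpa using hp))
  · exact Or.inr (Or.inr (by simpa using hp))

theorem yN (b : ℕ) (hb : b = 0 ∨ b = 1) (t : List (List ℕ))
    (ht : (if b = 0 then h else g) = t) (hk : t.length = k) (x : List ℕ) (hx : InB k x)
    (i : ℕ) (hi : i < k)
    (ih : ∀ y, InB m y → y ≠ app t x → Yield (pset (small k m h g)) [Sum.inl (8 + b)] (wordOf x y)) :
    ∀ d j, j + d = (t.getD i []).length → ∀ y, InB m y →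
      y ≠ List.drop j (t.getD i []) ++ app t x →
      Yield (pset (small k m h g)) [Sum.inl (ntm b i j)] (wordOf x y) := by
  have hit : i < t.length := hk ▸ hi
  have mem : ∀ p, p ∈ prodsA b t m → p ∈ pset (small k m h g) := by
    intro p hp
    exact mem_A b hb (by rw [ht]; exact hp)
  intro d
  induction d with
  | zero =>
    intro j hj y hy hne
    have hj' : j = (t.getD i []).length := by omega
    subst hj'
    refine yield_one.2 ⟨[Sum.inl (8 + b)], mem _ ?_, ih y hy ?_⟩
    · unfold prodsA
      rw [List.mem_cons, List.mem_flatMap]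
      exact Or.inr ⟨i, List.mem_range.2 hit, by simp⟩
    · simpa using hne
  | succ d ihd =>
    intro j hj y hy hne
    have hjl : j < (t.getD i []).length := by omega
    have hd : List.drop j (t.getD i []) = (t.getD i []).getD j 0 ::
        List.drop (j + 1) (t.getD i []) := by
      rw [List.drop_eq_getElem_cons hjl, List.getD_eq_getElem _ _ hjl]
    rw [hd] at hne
    cases y with
    | nil =>
      refine yield_one.2 ⟨[Sum.inl 4], mem _ ?_, yC x hx⟩
      unfold prodsA
      rw [List.mem_cons, List.mem_flatMap]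
      refine Or.inr ⟨i, List.mem_range.2 hit, ?_⟩
      rw [List.mem_cons, List.mem_cons, List.mem_flatMap]
      exact Or.inr (Or.inr ⟨j, List.mem_range.2 hjl, by simp⟩)
    | cons c y =>
      obtain ⟨hc, hy'⟩ := inB_cons.1 hy
      rw [wordOf_snoc]
      by_cases hce : c = (t.getD i []).getD j 0
      · have h1 := ihd (j + 1) (by omega) y hy' (by
          intro he
          apply hne
          rw [hce, he]
          rfl)
        refine yield_one.2 ⟨[Sum.inl (ntm b i (j + 1)), Sum.inr (ltr ((t.getD i []).getD j 0))],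
          mem _ ?_, ?_⟩
        · unfold prodsA
          rw [List.mem_cons, List.mem_flatMap]
          refine Or.inr ⟨i, List.mem_range.2 hit, ?_⟩
          rw [List.mem_cons, List.mem_cons, List.mem_flatMap]
          exact Or.inr (Or.inr ⟨j, List.mem_range.2 hjl, by simp⟩)
        · rw [hce]
          exact yield_append.2 ⟨_, _, rfl, h1,
            yield_map_inr (P := pset (small k m h g)) [ltr ((t.getD i []).getD j 0)]⟩
      · refine yield_one.2 ⟨[Sum.inl 3, Sum.inr (ltr c)], mem _ ?_, ?_⟩
        · unfold prodsA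
          rw [List.mem_cons, List.mem_flatMap]
          refine Or.inr ⟨i, List.mem_range.2 hit, ?_⟩
          rw [List.mem_cons, List.mem_cons, List.mem_flatMap]
          refine Or.inr (Or.inr ⟨j, List.mem_range.2 hjl, ?_⟩)
          rw [List.mem_cons, List.mem_cons, List.mem_flatMap]
          refine Or.inr (Or.inr ⟨c, List.mem_range.2 hc, ?_⟩)
          rw [if_neg hce]
          simp
        · exact yield_append.2 ⟨_, _, rfl, yB x y hx hy',
            yield_map_inr (P := pset (small k m h g)) [ltr c]⟩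

theorem yA (b : ℕ) (hb : b = 0 ∨ b = 1) (t : List (List ℕ))
    (ht : (if b = 0 then h else g) = t) (hk : t.length = k) (x : List ℕ) :
    InB k x → ∀ y, InB m y → y ≠ app t x →
      Yield (pset (small k m h g)) [Sum.inl (8 + b)] (wordOf x y) := by
  have mem : ∀ p, p ∈ prodsA b t m → p ∈ pset (small k m h g) := by
    intro p hp
    exact mem_A b hb (by rw [ht]; exact hp)
  induction x with
  | nil =>
    intro _ y hy hne
    have hne' : y ≠ [] := by simpa [app] using hne
    refine yield_one.2 ⟨[Sum.inr 0, Sum.inl 5], mem _ (by simp [prodsA]), ?_⟩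
    have : wordOf [] y = 0 :: (y.reverse.map ltr) := by simp [wordOf]
    rw [this]
    exact .ter (yE _ (by simpa using hne') (fun i hi => hy i (List.mem_reverse.1 hi)))
  | cons i x ih =>
    intro hx y hy hne
    obtain ⟨hi, hx'⟩ := inB_cons.1 hx
    have hit : i < t.length := hk ▸ hi
    rw [wordOf_cons]
    rw [app_cons] at hne
    refine yield_one.2 ⟨[Sum.inr (idx i), Sum.inl (ntm b i 0)], mem _ ?_, .ter ?_⟩
    · unfold prodsA
      rw [List.mem_cons, List.mem_flatMap]
      exact Or.inr ⟨i, List.mem_range.2 hit, by simp⟩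
    · exact yN b hb t ht hk x hx' i hi (fun y hy hne => ih hx' y hy hne)
        (t.getD i []).length 0 (Nat.zero_add _) y hy (by simpa using hne)

/-- if there is no solution, then every word of the regular set is generated -/
theorem small_complete (H : Good k m h g) (x y : List ℕ) (hx : InB k x) (hy : InB m y)
    (hns : x = [] ∨ app h x ≠ app g x) :
    Yield (pset (small k m h g)) [Sum.inl 2] (wordOf x y) := by
  by_cases h1 : y = app h x
  · by_cases h2 : y = app g x
    · rcases hns with rfl | hns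
      · have : y = [] := by simpa [app] using h1
        subst this
        exact yield_one.2 ⟨[Sum.inr 0], mem_common (by simp [common]), .ter .nil⟩
      · exact absurd (h1.symm.trans h2) hns
    · refine yield_one.2 ⟨[Sum.inl 9], mem_common (by simp [common]), ?_⟩
      exact yA 1 (Or.inr rfl) g (by simp) H.lg x hx y hy h2
  · refine yield_one.2 ⟨[Sum.inl 8], mem_common (by simp [common]), ?_⟩
    exact yA 0 (Or.inl rfl) h (by simp) H.lh x hx y hy h1

end Run7.h452.GF
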