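import Pool.Agent.Run7.h452.GF.Basic

/-!
The product of a grammar with a finite automaton.
-/

set_option autoImplicit false

namespace Run7.h452.GF

/-- code of the product nonterminals -/
def code (s : Option ℕ) (A : ℕ) (t : Option ℕ) : ℕ := 2 * Encodable.encode (s, A, t) + 1

theorem code_inj {s t s' t' : Option ℕ} {A A' : ℕ} (h : code s A t = code s' A' t') :
    s = s' ∧ A = A' ∧ t = t' := by
  have h1 : Encodable.encode (s, A, t) = Encodable.encode (s', A', t') := by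
    unfold code at h; omega
  have h2 := Encodable.encode_injective h1
  simp only [Prod.mk.injEq] at h2
  exact ⟨h2.1, h2.2.1, h2.2.2⟩

section prod

variable (P : Set (ℕ × List Sym)) (τ : ℕ → Finset ℕ) (Q : Set (Option ℕ))
  (δ : Option ℕ → ℕ → Option ℕ → Prop)

inductive Run : Option ℕ → List ℕ → Option ℕ → Prop
  | nil (s : Option ℕ) : Run s [] s
  | cons {s s1 t : Option ℕ} {a : ℕ} {w : List ℕ} : δ s a s1 → Run s1 w t → Run s (a :: w) t

inductive Lift : Option ℕ → List Sym → List Sym → Option ℕ → Prop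
  | nil (s : Option ℕ) : Lift s [] [] s
  | ter {s s1 t : Option ℕ} {a a' : ℕ} {β γ : List Sym} : a' ∈ τ a → δ s a' s1 →
      Lift s1 β γ t → Lift s (Sum.inr a :: β) (Sum.inr a' :: γ) t
  | non {s s1 t : Option ℕ} {A : ℕ} {β γ : List Sym} : s1 ∈ Q → Lift s1 β γ t →
      Lift s (Sum.inl A :: β) (Sum.inl (code s A s1) :: γ) t

variable {P τ Q δ}

theorem run_nil {s t : Option ℕ} : Run δ s [] t ↔ s = t := by
  constructor
  · intro h; cases h; rfl
  · rintro rfl; exact .nil _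

theorem run_cons {s t : Option ℕ} {a : ℕ} {w : List ℕ} :
    Run δ s (a :: w) t ↔ ∃ s1, δ s a s1 ∧ Run δ s1 w t := by
  constructor
  · intro h
    cases h with
    | cons h1 h2 => exact ⟨_, h1, h2⟩
  · rintro ⟨s1, h1, h2⟩; exact .cons h1 h2

theorem run_append {s t : Option ℕ} {u v : List ℕ} :
    Run δ s (u ++ v) t ↔ ∃ s1, Run δ s u s1 ∧ Run δ s1 v t := by
  induction u generalizing s with
  | nil => simp [run_nil]
  | cons a u ih =>
    rw [List.cons_append, run_cons]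
    constructor
    · rintro ⟨s1, h1, h2⟩
      obtain ⟨s2, h3, h4⟩ := ih.1 h2
      exact ⟨s2, .cons h1 h3, h4⟩
    · rintro ⟨s2, h3, h4⟩
      obtain ⟨s1, h5, h6⟩ := run_cons.1 h3
      exact ⟨s1, h5, ih.2 ⟨s2, h6, h4⟩⟩

theorem run_mem (hQ : ∀ s a t, δ s a t → t ∈ Q) {s t : Option ℕ} {w : List ℕ} (hs : s ∈ Q)
    (h : Run δ s w t) : t ∈ Q := by
  induction h with
  | nil => exact hs
  | cons h1 _ ih => exact ih (hQ _ _ _ h1)

theorem prod_sound {P'' : Set (ℕ × List Sym)}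
    (hP : ∀ s A t γ, (code s A t, γ) ∈ P'' → ∃ β, (A, β) ∈ P ∧ Lift τ Q δ s β γ t)
    {γ : List Sym} {w : List ℕ} (hy : Yield P'' γ w) :
    ∀ {s t : Option ℕ} {β : List Sym}, Lift τ Q δ s β γ t →
      (∃ u, List.Forall₂ (fun a' a => a' ∈ τ a) w u ∧ Yield P β u) ∧ Run δ s w t := by
  induction hy with
  | nil =>
    intro s t β h
    cases h
    exact ⟨⟨[], .nil, .nil⟩, .nil _⟩
  | ter _ ih =>
    intro s t β h
    cases h with
    | ter h1 h2 h3 =>
      obtain ⟨⟨u, hu, hy⟩, hr⟩ := ih h3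
      exact ⟨⟨_, .cons h1 hu, .ter hy⟩, .cons h2 hr⟩
  | @non A β' s' u w h1 _ _ ih1 ih2 =>
    intro s t β h
    cases h with
    | non h3 h4 =>
      obtain ⟨γ0, h5, h6⟩ := hP _ _ _ _ h1
      obtain ⟨⟨u1, hu1, hy1⟩, hr1⟩ := ih1 h6
      obtain ⟨⟨u2, hu2, hy2⟩, hr2⟩ := ih2 h4
      exact ⟨⟨u1 ++ u2, List.rel_append hu1 hu2, .non h5 hy1 hy2⟩, run_append.2 ⟨_, hr1, hr2⟩⟩

theorem forall₂_append_right {R : ℕ → ℕ → Prop} {w u v : List ℕ}
    (h : List.Forall₂ R w (u ++ v)) : ∃ w1 w2, w = w1 ++ w2 ∧ List.Forall₂ R w1 u ∧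
      List.Forall₂ R w2 v := by
  induction u generalizing w with
  | nil => exact ⟨[], w, rfl, .nil, h⟩
  | cons a u ih =>
    rw [List.cons_append] at h
    obtain ⟨b, w', hb, hw, rfl⟩ := List.forall₂_cons_right_iff.1 h
    obtain ⟨w1, w2, rfl, h1, h2⟩ := ih hw
    exact ⟨b :: w1, w2, rfl, .cons hb h1, h2⟩

theorem prod_complete {P'' : Set (ℕ × List Sym)}
    (hP : ∀ s A t β γ, s ∈ Q → t ∈ Q → (A, β) ∈ P → Lift τ Q δ s β γ t → (code s A t, γ) ∈ P'')
    (hQ : ∀ s a t, δ s a t → t ∈ Q) {β : List Sym} {u : List ℕ} (hy : Yield P β u) :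
    ∀ {w : List ℕ} {s t : Option ℕ}, s ∈ Q → List.Forall₂ (fun a' a => a' ∈ τ a) w u →
      Run δ s w t → ∃ γ, Lift τ Q δ s β γ t ∧ Yield P'' γ w := by
  induction hy with
  | nil =>
    intro w s t _ hw hr
    rw [List.forall₂_nil_right_iff] at hw
    subst hw
    rw [run_nil] at hr
    subst hr
    exact ⟨[], .nil _, .nil⟩
  | ter _ ih =>
    intro w s t hs hw hr
    obtain ⟨b, w', hb, hw', rfl⟩ := List.forall₂_cons_right_iff.1 hw
    obtain ⟨s1, h1, h2⟩ := run_cons.1 hr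
    obtain ⟨γ, h3, h4⟩ := ih (hQ _ _ _ h1) hw' h2
    exact ⟨_, .ter hb h1 h3, .ter h4⟩
  | @non A β s' u1 u2 h1 _ _ ih1 ih2 =>
    intro w s t hs hw hr
    obtain ⟨w1, w2, rfl, hw1, hw2⟩ := forall₂_append_right hw
    obtain ⟨s1, hr1, hr2⟩ := run_append.1 hr
    have hs1 : s1 ∈ Q := run_mem hQ hs hr1
    obtain ⟨γ1, h3, h4⟩ := ih1 hs hw1 hr1
    obtain ⟨γ2, h5, h6⟩ := ih2 hs1 hw2 hr2
    exact ⟨_, .non hs1 h5, .non (hP _ _ _ _ _ hs hs1 h1 h3) h4 h6⟩

theorem lift_finite (hQf : Q.Finite) (hQ : ∀ s a t, δ s a t → t ∈ Q) (β : List Sym) :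
    {γ | ∃ s t, s ∈ Q ∧ Lift τ Q δ s β γ t}.Finite := by
  induction β with
  | nil =>
    refine (Set.finite_singleton []).subset ?_
    rintro γ ⟨s, t, _, h⟩
    cases h
    rfl
  | cons x β ih =>
    rcases x with A | a
    · refine (Set.Finite.image2 (fun (x : Sym) (y : List Sym) => x :: y)
        ((Set.Finite.image2 (fun s t => (Sum.inl (code s A t) : Sym)) hQf hQf)) ih).subset ?_
      rintro γ ⟨s, t, hs, h⟩
      cases h with
      | non h1 h2 =>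
        exact ⟨_, ⟨s, hs, _, h1, rfl⟩, _, ⟨_, t, h1, h2⟩, rfl⟩
    · refine (Set.Finite.image2 (fun (x : Sym) (y : List Sym) => x :: y)
        (((τ a).finite_toSet).image (fun b => (Sum.inr b : Sym))) ih).subset ?_
      rintro γ ⟨s, t, hs, h⟩
      cases h with
      | ter h1 h2 h3 =>
        exact ⟨_, ⟨_, h1, rfl⟩, _, ⟨_, t, hQ _ _ _ h2, h3⟩, rfl⟩

theorem lift_over {σN σT : ℕ → Finset ℕ} (hτ : τ = σT)
    (hc : ∀ s A t, s ∈ Q → t ∈ Q → code s A t ∈ σN A) (hQ : ∀ s a t, δ s a t → t ∈ Q)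
    {s t : Option ℕ} {β γ : List Sym} (h : Lift τ Q δ s β γ t) (hs : s ∈ Q) :
    List.Forall₂ (Over σN σT) γ β := by
  subst hτ
  induction h with
  | nil => exact .nil
  | ter h1 h2 _ ih => exact .cons h1 (ih (hQ _ _ _ h2))
  | non h1 _ ih => exact .cons (hc _ _ _ hs h1) (ih h1)

end prod

end Run7.h452.GF
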