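import Pool.Agent.Run7.h452.GF.Prod

/-!
If the regular part of the larger form is covered by the smaller form, then the two forms have the
same family.
-/

set_option autoImplicit false

namespace Run7.h452.GF

structure Ctx (P1 P2 : Set (ℕ × List Sym)) : Prop where
  sub : P1 ⊆ P2
  diff : ∀ p ∈ P2, p ∉ P1 → p.1 = 6 ∨ p = (0, [Sum.inl 6])
  no6 : ∀ p ∈ P1, p.1 ≠ 6
  rhs : ∀ p ∈ P1, ∀ x, Sum.inl x ∈ p.2 → x ≠ 0 ∧ x ≠ 6
  start : ∀ p ∈ P1, p.1 = 0 → ∃ x, p.2 = [Sum.inl x]
  reg : ∀ p ∈ P2, p.1 = 5 ∨ p.1 = 6 → (∃ a, p.2 = [Sum.inr a]) ∨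
    ∃ a x, p.2 = [Sum.inr a, Sum.inl x] ∧ (x = 5 ∨ x = 6)
  s2 : (0, [Sum.inl 2]) ∈ P1
  key : ∀ u, Yield P2 [Sum.inl 6] u → Yield P1 [Sum.inl 2] u

/-- the data of an interpretation with start letter `z` -/
structure IntS (σN σT : ℕ → Finset ℕ) (z' : ℕ) (P' : Set (ℕ × List Sym)) (z : ℕ)
    (P : Set (ℕ × List Sym)) : Prop where
  dN : ∀ x y, x ≠ y → Disjoint (σN x) (σN y)
  dT : ∀ x y, x ≠ y → Disjoint (σT x) (σT y)
  st : z' ∈ σN z
  pr : ∀ p' ∈ P', ∃ p ∈ P, LiftsTo σN σT p' p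

section
variable (P1 P' : Set (ℕ × List Sym)) (σN σT : ℕ → Finset ℕ)

def delt (s : Option ℕ) (a : ℕ) (t : Option ℕ) : Prop :=
  ∃ q, s = some q ∧ ((t = none ∧ (q, [Sum.inr a]) ∈ P') ∨
    ∃ q', t = some q' ∧ (q, [Sum.inr a, Sum.inl q']) ∈ P')

def states : Set (Option ℕ) :=
  insert none (some '' {q | ∃ p ∈ P', Sum.inl q ∈ p.2})

def map0 : Sym → Sym := Sum.map (fun x => 2 * x) id

def copyP : Set (ℕ × List Sym) :=
  {p | ∃ p' ∈ P', (∃ p1 ∈ P1, LiftsTo σN σT p' p1) ∧ p = (2 * p'.1, p'.2.map map0)}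

def prodP : Set (ℕ × List Sym) :=
  {p | ∃ (s : Option ℕ) (A : ℕ) (t : Option ℕ) (β γ : List Sym), s ∈ states P' ∧
    t ∈ states P' ∧ (A, β) ∈ P1 ∧ Lift σT (states P') (delt P') s β γ t ∧ p = (code s A t, γ)}

def startP : Set (ℕ × List Sym) :=
  {p | ∃ z q0, z ∈ σN 0 ∧ q0 ∈ σN 6 ∧ (z, [Sum.inl q0]) ∈ P' ∧
    p = (2 * z, [Sum.inl (code (some q0) 2 none)])}

def newP : Set (ℕ × List Sym) :=
  copyP P1 P' σN σT ∪ prodP P1 P' σT ∪ startP P' σN

variable {P1 P' σN σT}

theorem states_finite (h : P'.Finite) : (states P').Finite := by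
  refine Set.Finite.insert _ (Set.Finite.image _ ?_)
  have : {q | ∃ p ∈ P', Sum.inl q ∈ p.2} = ⋃ p ∈ P', {q | (Sum.inl q : Sym) ∈ p.2} := by
    ext q; simp
  rw [this]
  refine h.biUnion fun p _ => ?_
  have : {q : ℕ | (Sum.inl q : Sym) ∈ p.2} ⊆ Sum.inl ⁻¹' {x | x ∈ p.2} := fun q hq => hq
  exact (Set.Finite.preimage (Sum.inl_injective.injOn) (List.finite_toSet p.2)).subset this

theorem delt_mem (s : Option ℕ) (a : ℕ) (t : Option ℕ) (h : delt P' s a t) : t ∈ states P' := by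
  obtain ⟨q, -, ⟨rfl, -⟩ | ⟨q', rfl, h⟩⟩ := h
  · exact Set.mem_insert _ _
  · exact Set.mem_insert_of_mem _ ⟨q', ⟨_, h, by simp⟩, rfl⟩

theorem newP_finite (h1 : P1.Finite) (h' : P'.Finite) : (newP P1 P' σN σT).Finite := by
  refine (Set.Finite.union (Set.Finite.union ?_ ?_) ?_)
  · refine (h'.image (fun p' : ℕ × List Sym => (2 * p'.1, p'.2.map map0))).subset ?_
    rintro p ⟨p', hp', -, rfl⟩
    exact ⟨p', hp', rfl⟩
  · refine (h1.biUnion (fun p _ => ((states_finite h').prod (states_finite h')).image2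
      (fun st γ => (code st.1 p.1 st.2, γ))
      (lift_finite (τ := σT) (states_finite h') delt_mem p.2))).subset ?_
    rintro p ⟨s, A, t, β, γ, hs, ht, hp, hl, rfl⟩
    simp only [Set.mem_iUnion]
    exact ⟨(A, β), hp, (s, t), ⟨hs, ht⟩, γ, ⟨s, t, hs, hl⟩, rfl⟩
  · refine (h'.image (fun p' : ℕ × List Sym => (2 * p'.1,
      [Sum.inl (code (some (match p'.2 with | [Sum.inl q] => q | _ => 0)) 2 none)]))).subset ?_
    rintro p ⟨z, q0, -, -, hp, rfl⟩
    exact ⟨_, hp, rfl⟩

theorem over_map0 {σ'' : ℕ → Finset ℕ} (h : ∀ x a, a ∈ σN x → 2 * a ∈ σ'' x) {s' s : List Sym}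
    (hs : List.Forall₂ (Over σN σT) s' s) : List.Forall₂ (Over σ'' σT) (s'.map map0) s := by
  induction hs with
  | nil => exact .nil
  | @cons a b l1 l2 hab _ ih =>
    refine .cons ?_ ih
    rcases a with a | a <;> rcases b with b | b
    · exact h _ _ hab
    · exact hab
    · exact hab
    · exact hab

theorem new_int {P2 : Set (ℕ × List Sym)} (c : Ctx P1 P2) (h' : P'.Finite) {z' : ℕ}
    (hI : IntS σN σT z' P' 0 P2) :
    ∃ σ'', IntS σ'' σT (2 * z') (newP P1 P' σN σT) 0 P1 := by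
  classical
  let Qf : Finset (Option ℕ) := (states_finite h').toFinset
  let σ'' : ℕ → Finset ℕ := fun x => (σN x).image (fun a => 2 * a) ∪
    (Qf ×ˢ Qf).image (fun st => code st.1 x st.2)
  have m1 : ∀ x a, a ∈ σN x → 2 * a ∈ σ'' x := by
    intro x a ha
    exact Finset.mem_union_left _ (Finset.mem_image.2 ⟨a, ha, rfl⟩)
  have m2 : ∀ s A t, s ∈ states P' → t ∈ states P' → code s A t ∈ σ'' A := by
    intro s A t hs ht
    refine Finset.mem_union_right _ (Finset.mem_image.2 ⟨(s, t), ?_, rfl⟩)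
    simp only [Finset.mem_product, Qf, Set.Finite.mem_toFinset]
    exact ⟨hs, ht⟩
  have m3 : ∀ x b, b ∈ σ'' x → (∃ a ∈ σN x, b = 2 * a) ∨ ∃ s t, b = code s x t := by
    intro x b hb
    rcases Finset.mem_union.1 hb with h | h
    · obtain ⟨a, ha, rfl⟩ := Finset.mem_image.1 h
      exact Or.inl ⟨a, ha, rfl⟩
    · obtain ⟨st, -, rfl⟩ := Finset.mem_image.1 h
      exact Or.inr ⟨st.1, st.2, rfl⟩
  refine ⟨σ'', ?_, hI.dT, m1 _ _ hI.st, ?_⟩
  · intro x y hxy
    rw [Finset.disjoint_left]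
    intro b hb hb'
    rcases m3 _ _ hb with ⟨a, ha, rfl⟩ | ⟨s, t, rfl⟩
    · rcases m3 _ _ hb' with ⟨a', ha', he⟩ | ⟨s, t, he⟩
      · have : a = a' := by omega
        subst this
        exact hxy (eq_of_mem hI.dN ha ha')
      · unfold code at he; omega
    · rcases m3 _ _ hb' with ⟨a', ha', he⟩ | ⟨s', t', he⟩
      · unfold code at he; omega
      · exact hxy (code_inj he).2.1
  · rintro p ((⟨p', hp', ⟨p1, hp1, hl⟩, rfl⟩ | ⟨s, A, t, β, γ, hs, ht, hp, hl, rfl⟩) |
      ⟨z, q0, hz, hq, hp, rfl⟩)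
    · exact ⟨p1, hp1, m1 _ _ hl.1, over_map0 m1 hl.2⟩
    · exact ⟨(A, β), hp, m2 _ _ _ hs ht, lift_over rfl m2 delt_mem hl hs⟩
    · refine ⟨_, c.s2, m1 _ _ hz, .cons ?_ .nil⟩
      exact m2 _ _ _ (Set.mem_insert_of_mem _ ⟨q0, ⟨_, hp, by simp⟩, rfl⟩) (Set.mem_insert _ _)

/-- the letter `0` and the letter `6` do not occur -/
def OkS (s : List Sym) : Prop := ∀ x, Sum.inl x ∈ s → x ≠ 0 ∧ x ≠ 6

theorem claim1 {P2 : Set (ℕ × List Sym)} (c : Ctx P1 P2) {z' : ℕ}
    (hI : IntS σN σT z' P' 0 P2) {s' : List Sym} {w : List ℕ} (hy : Yield P' s' w) :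
    ∀ {s : List Sym}, List.Forall₂ (Over σN σT) s' s → OkS s →
      Yield (newP P1 P' σN σT) (s'.map map0) w := by
  induction hy with
  | nil => intro s _ _; exact .nil
  | ter _ ih =>
    intro s hs hok
    obtain ⟨b, t', hb, ht', rfl⟩ := List.forall₂_cons_left_iff.1 hs
    exact .ter (ih ht' fun x hx => hok x (List.mem_cons_of_mem _ hx))
  | @non A β r u w h1 _ _ ih1 ih2 =>
    intro s hs hok
    obtain ⟨b, t', hb, ht', rfl⟩ := List.forall₂_cons_left_iff.1 hs
    rcases b with B | b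
    · have hb' : A ∈ σN B := hb
      obtain ⟨p, hp, hp1, hp2⟩ := hI.pr _ h1
      have e : B = p.1 := eq_of_mem hI.dN hb' hp1
      have hB := hok B (List.mem_cons_self)
      have hpP1 : p ∈ P1 := by
        by_contra hn
        rcases c.diff p hp hn with h | h
        · exact hB.2 (e.trans h)
        · exact hB.1 (e.trans (congrArg Prod.fst h))
      refine .non (β := β.map map0) ?_ (ih1 hp2 (c.rhs p hpP1))
        (ih2 ht' fun x hx => hok x (List.mem_cons_of_mem _ hx))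
      exact Or.inl (Or.inl ⟨(A, β), h1, ⟨p, hpP1, hp1, hp2⟩, rfl⟩)
    · exact absurd hb (by simp [Over])

theorem map_cons_inv {s' : List Sym} {x : Sym} {t : List Sym} (h : s'.map map0 = x :: t) :
    ∃ y t', s' = y :: t' ∧ map0 y = x ∧ t'.map map0 = t := by
  cases s' with
  | nil => simp at h
  | cons y t' =>
    simp only [List.map_cons, List.cons.injEq] at h
    exact ⟨y, t', rfl, h.1, h.2⟩

theorem claim1' {P2 : Set (ℕ × List Sym)} {z' : ℕ}
    (hI : IntS σN σT z' P' 0 P2) (c : Ctx P1 P2) {s'' : List Sym} {w : List ℕ}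
    (hy : Yield (newP P1 P' σN σT) s'' w) :
    ∀ {s' s : List Sym}, s'.map map0 = s'' → List.Forall₂ (Over σN σT) s' s → OkS s →
      Yield P' s' w := by
  induction hy with
  | nil =>
    intro s' s hs' _ _
    rw [List.map_eq_nil_iff] at hs'
    subst hs'
    exact .nil
  | ter _ ih =>
    intro s' s hs' hs hok
    obtain ⟨y, t', rfl, hy, ht⟩ := map_cons_inv hs'
    obtain ⟨b, t1, hb, ht', rfl⟩ := List.forall₂_cons_left_iff.1 hs
    rcases y with y | y
    · simp [map0] at hy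
    · simp only [map0, Sum.map_inr, id, Sum.inr.injEq] at hy
      subst hy
      exact .ter (ih ht ht' fun x hx => hok x (List.mem_cons_of_mem _ hx))
  | @non A β r u w h1 _ _ ih1 ih2 =>
    intro s' s hs' hs hok
    obtain ⟨y, t', rfl, hy, ht⟩ := map_cons_inv hs'
    obtain ⟨b, t1, hb, ht', rfl⟩ := List.forall₂_cons_left_iff.1 hs
    rcases y with y | y
    · simp only [map0, Sum.map_inl, Sum.inl.injEq] at hy
      rcases b with B | b
      · have hb' : y ∈ σN B := hb
        have hB := hok B (List.mem_cons_self)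
        rcases h1 with (⟨p', hp', ⟨p1, hp1, hl⟩, he⟩ | ⟨s, A', t, β', γ, hs, ht, hp, hl, he⟩) |
          ⟨z, q0, hz, hq, hp, he⟩
        · simp only [Prod.mk.injEq] at he
          have e1 : y = p'.1 := by omega
          have e2 : B = p1.1 := eq_of_mem hI.dN hb' (e1 ▸ hl.1)
          refine .non (β := p'.2) ?_ (ih1 he.2.symm hl.2 (c.rhs p1 hp1))
            (ih2 ht ht' fun x hx => hok x (List.mem_cons_of_mem _ hx))
          rw [e1]
          exact hp'
        · simp only [Prod.mk.injEq] at he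
          exfalso
          have := he.1
          unfold code at this
          omega
        · simp only [Prod.mk.injEq] at he
          have e1 : y = z := by omega
          exact absurd (eq_of_mem hI.dN hb' (e1 ▸ hz)) hB.1
      · exact absurd hb (by simp [Over])
    · simp [map0] at hy

theorem reg_inv {P2 : Set (ℕ × List Sym)} {z' : ℕ} (hI : IntS σN σT z' P' 0 P2) (c : Ctx P1 P2)
    {q x : ℕ} (hx : x = 5 ∨ x = 6) (hq : q ∈ σN x) {β' : List Sym} (h : (q, β') ∈ P') :
    (∃ a, β' = [Sum.inr a]) ∨ ∃ a q' y, β' = [Sum.inr a, Sum.inl q'] ∧ (y = 5 ∨ y = 6) ∧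
      q' ∈ σN y := by
  obtain ⟨p, hp, hp1, hp2⟩ := hI.pr _ h
  have e : x = p.1 := eq_of_mem hI.dN hq hp1
  rcases c.reg p hp (e ▸ hx) with ⟨a, ha⟩ | ⟨a, y, ha, hy⟩
  · rw [ha] at hp2
    obtain ⟨b, t1, hb, ht', he⟩ := List.forall₂_cons_right_iff.1 hp2
    rw [List.forall₂_nil_right_iff] at ht'
    subst ht'
    rcases b with b | b
    · exact absurd hb (by simp [Over])
    · exact Or.inl ⟨b, he⟩
  · rw [ha] at hp2
    obtain ⟨b, t1, hb, ht', he⟩ := List.forall₂_cons_right_iff.1 hp2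
    obtain ⟨b', t2, hb', ht2, he'⟩ := List.forall₂_cons_right_iff.1 ht'
    rw [List.forall₂_nil_right_iff] at ht2
    subst ht2
    rcases b with b | b
    · exact absurd hb (by simp [Over])
    · rcases b' with b' | b'
      · refine Or.inr ⟨b, b', y, ?_, hy, hb'⟩
        rw [he'] at he
        exact he
      · exact absurd hb' (by simp [Over])

theorem claim3 {P2 : Set (ℕ × List Sym)} {z' : ℕ} (hI : IntS σN σT z' P' 0 P2) (c : Ctx P1 P2)
    (w : List ℕ) : ∀ {q x : ℕ}, (x = 5 ∨ x = 6) → q ∈ σN x → Yield P' [Sum.inl q] w →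
      Run (delt P') (some q) w none := by
  induction w with
  | nil =>
    intro q x hx hq hy
    obtain ⟨β', h1, h2⟩ := yield_one.1 hy
    rcases reg_inv hI c hx hq h1 with ⟨a, rfl⟩ | ⟨a, q', y, rfl, hy, hq'⟩
    · obtain ⟨w', hw', -⟩ := yield_ter.1 h2
      simp at hw'
    · obtain ⟨w', hw', -⟩ := yield_ter.1 h2
      simp at hw'
  | cons b w ih =>
    intro q x hx hq hy
    obtain ⟨β', h1, h2⟩ := yield_one.1 hy
    rcases reg_inv hI c hx hq h1 with ⟨a, rfl⟩ | ⟨a, q', y, rfl, hy, hq'⟩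
    · obtain ⟨w', hw', h3⟩ := yield_ter.1 h2
      rw [yield_nil] at h3
      subst h3
      simp only [List.cons.injEq] at hw'
      obtain ⟨rfl, rfl⟩ := hw'
      exact .cons ⟨q, rfl, Or.inl ⟨rfl, h1⟩⟩ (.nil _)
    · obtain ⟨w', hw', h3⟩ := yield_ter.1 h2
      simp only [List.cons.injEq] at hw'
      obtain ⟨rfl, rfl⟩ := hw'
      exact .cons ⟨q, rfl, Or.inr ⟨q', rfl, h1⟩⟩ (ih hy hq' h3)

theorem claim3' (w : List ℕ) : ∀ {q : ℕ}, Run (delt P') (some q) w none →
    Yield P' [Sum.inl q] w := by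
  induction w with
  | nil =>
    intro q h
    rw [run_nil] at h
    cases h
  | cons b w ih =>
    intro q h
    obtain ⟨s1, ⟨q1, hq1, h1⟩, h2⟩ := run_cons.1 h
    simp only [Option.some.injEq] at hq1
    subst hq1
    rcases h1 with ⟨rfl, h1⟩ | ⟨q', rfl, h1⟩
    · cases w with
      | nil => exact yield_one.2 ⟨_, h1, .ter .nil⟩
      | cons a w =>
        obtain ⟨s2, ⟨q2, hq2, -⟩, -⟩ := run_cons.1 h2
        cases hq2
    · exact yield_one.2 ⟨_, h1, .ter (ih h2)⟩

/-- the new interpretation has the same language -/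
theorem new_lang {P2 : Set (ℕ × List Sym)} (c : Ctx P1 P2) {z' : ℕ}
    (hI : IntS σN σT z' P' 0 P2) (w : List ℕ) :
    Yield (newP P1 P' σN σT) [Sum.inl (2 * z')] w ↔ Yield P' [Sum.inl z'] w := by
  constructor
  · intro h
    obtain ⟨γ, h1, h2⟩ := yield_one.1 h
    rcases h1 with (⟨p', hp', ⟨p1, hp1, hl⟩, he⟩ | ⟨s, A', t, β', γ, hs, ht, hp, hl, he⟩) |
          ⟨z, q0, hz, hq, hp, he⟩
    · simp only [Prod.mk.injEq] at he
      have e1 : z' = p'.1 := by omega
      have e2 : 0 = p1.1 := eq_of_mem hI.dN hI.st (e1 ▸ hl.1)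
      refine yield_one.2 ⟨p'.2, ?_, claim1' hI c h2 he.2.symm hl.2 (c.rhs p1 hp1)⟩
      rw [e1]
      exact hp'
    · simp only [Prod.mk.injEq] at he
      exfalso
      have := he.1
      unfold code at this
      omega
    · simp only [Prod.mk.injEq] at he
      have e1 : z' = z := by omega
      subst e1
      obtain ⟨-, rfl⟩ := he
      refine yield_one.2 ⟨_, hp, ?_⟩
      have hP : ∀ s A t γ, (code s A t, γ) ∈ newP P1 P' σN σT →
          ∃ β, (A, β) ∈ P1 ∧ Lift σT (states P') (delt P') s β γ t := by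
        intro s A t γ h
        rcases h with (⟨p', hp', -, he⟩ | ⟨s', A', t', β', γ', hs, ht, hp, hl, he⟩) |
          ⟨z, q0, hz, hq, hp, he⟩
        · simp only [Prod.mk.injEq] at he
          exfalso
          have := he.1
          unfold code at this
          omega
        · simp only [Prod.mk.injEq] at he
          obtain ⟨rfl, rfl, rfl⟩ := code_inj he.1
          rw [he.2]
          exact ⟨β', hp, hl⟩
        · simp only [Prod.mk.injEq] at he
          exfalso
          have := he.1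
          unfold code at this
          omega
      have := (prod_sound (P := P1) (τ := σT) (Q := states P') (δ := delt P') hP h2
        (s := some q0) (t := none) (β := [Sum.inl 2])
        (.non (Set.mem_insert _ _) (.nil _))).2
      exact claim3' w this
  · intro h
    obtain ⟨β', h1, h2⟩ := yield_one.1 h
    obtain ⟨p, hp, hp1, hp2⟩ := hI.pr _ h1
    have e : 0 = p.1 := eq_of_mem hI.dN hI.st hp1
    by_cases hP1 : p ∈ P1
    · refine yield_one.2 ⟨β'.map map0, Or.inl (Or.inl ⟨_, h1, ⟨p, hP1, hp1, hp2⟩, rfl⟩), ?_⟩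
      exact claim1 c hI h2 hp2 (c.rhs p hP1)
    · rcases c.diff p hp hP1 with h6 | h6
      · omega
      · rw [h6] at hp2
        obtain ⟨b, t1, hb, ht', he⟩ := List.forall₂_cons_right_iff.1 hp2
        rw [List.forall₂_nil_right_iff] at ht'
        subst ht'
        rcases b with q0 | b
        · have he' : β' = [Sum.inl q0] := he
          subst he'
          have hq0 : q0 ∈ σN 6 := hb
          have hrun := claim3 hI c w (Or.inr rfl) hq0 h2
          obtain ⟨u, hu, hyu⟩ := yield_proj hI.dN hI.pr h2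
            (s := [Sum.inl 6]) (.cons hq0 .nil)
          have hyu' := c.key u hyu
          have hmem : some q0 ∈ states P' :=
            Set.mem_insert_of_mem _ ⟨q0, ⟨_, h1, by simp⟩, rfl⟩
          obtain ⟨γ, hγ1, hγ2⟩ := prod_complete (P := P1) (τ := σT) (Q := states P')
            (δ := delt P') (P'' := newP P1 P' σN σT) (by
              intro s A t β γ hs ht hA hl
              exact Or.inl (Or.inr ⟨s, A, t, β, γ, hs, ht, hA, hl, rfl⟩)) delt_mem hyu' hmem hu hrun
          cases hγ1 with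
          | non h3 h4 =>
            cases h4
            exact yield_one.2 ⟨_, Or.inr ⟨z', q0, hI.st, hq0, h1, rfl⟩, hγ2⟩
        · exact absurd hb (by simp [Over])

end

end Run7.h452.GF
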